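import Pool.Agent.NH99.WZ.StmC

set_option autoImplicit false

/-!
# Project WZ: statements for the `L_p` version and for the small ball inequality
-/

namespace Pool.Agent.NH99.WZ

open Finset
open Pool.Agent.H397R2.SD (E)
open Pool.Agent.W776.GD (Om flp rad fE empt)
open Pool.Agent.TH973.SD (discw)

/-! ### The `L_p` version -/

/-- WZ-N: fine pointwise bounds on good cells -/
def S_DETF : Prop := ∀ (n m R : ℕ) (ρ β δ γ lam : ℝ) (X : Fin 3 → ℕ → ℝ) (y : Ed → ℝ),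
  Prm n m R ρ β δ γ lam → Sg X → (∀ r, ∑ i, r i ≠ n → y r = 0) → (∀ r, |y r| ≤ ρ) →
  ∀ q : Ed, (∀ i, q i ≤ n) → Good m β δ X y q →
    ∀ r : Ed, (∀ i, r i ≤ q i) → ∀ t,
      |AA X y t r| ≤ 4 * (((m : ℝ) + 1) ^ 2 * δ) ∧ |PP X y t r| ≤ 4 * β

/-- WZ-30: pointwise bounds one step beyond -/
def S_ONE : Prop := ∀ (n : ℕ) (ρ η : ℝ) (X : Fin 3 → ℕ → ℝ) (y : Ed → ℝ), Sg X →
  (∀ r, ∑ i, r i ≠ n → y r = 0) → (∀ r, |y r| ≤ ρ) → 0 ≤ ρ → ρ ≤ η → η ≤ 1 / 50 →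
  ∀ q s : Ed, (∀ i, s i ≤ q i + 1) → (∀ r : Ed, (∀ i, r i ≤ s i) → 0 < DD y r) →
    (∀ r : Ed, (∀ i, r i ≤ q i) → ∀ t, |AA X y t r| ≤ η ∧ |PP X y t r| ≤ η) →
    ∀ (t : Fin 3) (r : Ed), (∀ i, r i ≤ s i) → r t < s t → |AA X y t r| ≤ 8 * η

open Classical in
/-- WZ-31: moments of the laws -/
def S_MOM : Prop := ∀ (Ω : Type) [Fintype Ω] [Nonempty Ω] (n : ℕ) (T : Fin 3 → ℕ → Ω → Ω)
  (X : Fin 3 → ℕ → Ω → ℝ) (f : Ed → Ω → ℝ) (ρ κ θ : ℝ) (s : Ed) (G : Ω → Prop),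
  Hyp n T X f → (∀ i, s i ≤ n + 1) → 0 ≤ κ → κ ≤ 1 / 2 → 0 ≤ θ → θ ≤ 1 →
  (∀ x, G x → ∀ r : Ed, (∀ i, r i ≤ s i) → 0 < DD (yx ρ f x) r) →
  (∀ x, G x → ∀ v < s 0, |AA (Xx X x) (yx ρ f x) 0 (Function.update s 0 v)| ≤ κ) →
  E (fun x => if G x then (DD (yx ρ f x) s) ^ (1 + θ) else 0) ≤
    Real.exp (2 * θ * ((n : ℝ) + 1) * κ ^ 2)

open Classical in
/-- WZ-32: the `L_(1+θ)` norm of the test function -/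
def S_LP : Prop := ∀ (Ω : Type) [Fintype Ω] [Nonempty Ω] (n m R : ℕ) (T : Fin 3 → ℕ → Ω → Ω)
  (X : Fin 3 → ℕ → Ω → ℝ) (f : Ed → Ω → ℝ) (ρ β δ γ lam κ θ : ℝ), Hyp n T X f →
  Prm n m R ρ β δ γ lam → κ = 32 * (((m : ℝ) + 1) ^ 2 * δ) → 0 ≤ θ → θ ≤ 1 / 2 →
  4 * θ * ((n : ℝ) + 1) * κ ^ 2 ≤ 1 → ((n : ℝ) + 2) ^ (8 * θ) ≤ 2 →
  14 ^ 2 * ((n : ℝ) + 2) ^ 6 * (2 * Real.sqrt (((n : ℝ) + 2) ^ 3 * VV n R lam)) ≤ 1 →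
  E (fun x => |Psi n m ρ β δ X f x| ^ (1 + θ)) ≤ 8

/-- WZ-33: Hölder's inequality in the form needed -/
def S_HOL : Prop := ∀ (Ω : Type) [Fintype Ω] [Nonempty Ω] (D g : Ω → ℝ) (V' Y : ℝ) (K : ℕ),
  0 < V' → 0 ≤ Y → E (fun x => |g x| ^ (1 + 1 / (2 * (K : ℝ) + 1))) ≤ Y →
  0 ≤ E (fun x => D x * g x) → (1 + Y) * V' ≤ E (fun x => D x * g x) →
  1 ≤ E (fun x => (D x / V') ^ (2 * K + 2))

/-- WZ-34: choice of the parameters -/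
def S_NUM2 : Prop := ∀ a : ℝ, 0 < a → a ≤ 1 / 28 → ∃ n0 R : ℕ, ∀ n : ℕ, n0 ≤ n →
  ∀ Mr : ℝ, 1 ≤ Mr → Mr ≤ ((n : ℝ) + 1) ^ (1 - 7 * a) →
  ∃ (m : ℕ) (β δ γ lam : ℝ), Prm n m R (Real.sqrt Mr / ((n : ℝ) + 1)) β δ γ lam ∧
    60000 * (Real.sqrt Mr / ((n : ℝ) + 1)) ≤ 1 ∧
    14 ^ 2 * ((n : ℝ) + 2) ^ 6 * (2 * Real.sqrt (((n : ℝ) + 2) ^ 3 * VV n R lam)) ≤ 1 ∧
    ∀ K : ℕ, Mr * ((n : ℝ) + 1) ^ (2 * a) ≤ 2 * K + 2 →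
      1 / (2 * (K : ℝ) + 1) ≤ 1 / 2 ∧
      4 * (1 / (2 * (K : ℝ) + 1)) * ((n : ℝ) + 1) * (32 * (((m : ℝ) + 1) ^ 2 * δ)) ^ 2 ≤ 1 ∧
      ((n : ℝ) + 2) ^ (8 * (1 / (2 * (K : ℝ) + 1))) ≤ 2

/-- WZ-35: the main statement on the grid, all even exponents -/
def S_CORE2 : Prop := ∀ a : ℝ, 0 < a → a ≤ 1 / 28 → ∃ n0 : ℕ, ∀ n : ℕ, n0 ≤ n →
  ∀ Mr : ℝ, 1 ≤ Mr → Mr ≤ ((n : ℝ) + 1) ^ (1 - 7 * a) →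
    ∀ K : ℕ, Mr * ((n : ℝ) + 1) ^ (2 * a) ≤ 2 * K + 2 →
      ∀ (ι : Type) (P : Finset ι) (w : ι → ℝ) (V : ℝ) (o : ι → Fin 3 → ℕ) (u : Fin 3 → ℝ),
        2 * P.card ≤ 2 ^ n → (2 : ℝ) ^ n ≤ 4 * V → V ≤ 2 ^ n →
        1 ≤ E (fun x : Om 3 n => (discw P w V o u x /
          (Real.sqrt Mr * ((n : ℝ) + 1) / 50000)) ^ (2 * K + 2))

/-! ### The small ball inequality -/

/-- WZ-40: pairing with a hyperbolic sum: `F r` are the parts of order `n` of `H`, `f r` the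
signs -/
def S_SBP : Prop := ∀ (Ω : Type) [Fintype Ω] [Nonempty Ω] (n m : ℕ) (T : Fin 3 → ℕ → Ω → Ω)
  (X : Fin 3 → ℕ → Ω → ℝ) (f F : Ed → Ω → ℝ) (ρ β δ : ℝ), Hyp n T X f → 0 ≤ β → 0 ≤ δ →
  (∀ r x, ∑ i, r i ≠ n → F r x = 0) →
  (∀ r i v x, r i < v → F r (T i v x) = F r x) → (∀ r i x, F r (T i (r i) x) = -F r x) →
  E (fun x => (∑ r ∈ cells (fun _ => n), F r x) * Psi n m ρ β δ X f x) =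
    ρ * ∑ r ∈ cells (fun _ => n), E (fun x => F r x * f r x)

/-- WZ-41: the abstract small ball inequality -/
def S_SBA : Prop := ∀ ε : ℝ, 0 < ε → ∃ n0 : ℕ, ∀ n : ℕ, n0 ≤ n →
  ∀ (Ω : Type) [Fintype Ω] [Nonempty Ω] (T : Fin 3 → ℕ → Ω → Ω)
    (X : Fin 3 → ℕ → Ω → ℝ) (f F : Ed → Ω → ℝ), Hyp n T X f →
    (∀ r x, ∑ i, r i ≠ n → F r x = 0) →
    (∀ r i v x, r i < v → F r (T i v x) = F r x) → (∀ r i x, F r (T i (r i) x) = -F r x) →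
    (∀ r x, F r x * f r x = |F r x|) →
    ∃ x : Ω, ∑ r ∈ cells (fun _ => n), E (fun x => |F r x|) ≤
      2 * ((n : ℝ) + 1) ^ (1 / 2 + ε) * |∑ r ∈ cells (fun _ => n), F r x|

end Pool.Agent.NH99.WZ
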