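import Pool.Agent.NH99.WZ.Defs
import Pool.Agent.TH973.SD.W1
import Pool.Agent.W776.GD.P1

set_option autoImplicit false

/-!
# Project WZ: statements (system, chains, probability, pairing)
-/

namespace Pool.Agent.NH99.WZ

open Finset
open Pool.Agent.H397R2.SD (E)
open Pool.Agent.W776.GD (Om flp rad fE empt)
open Pool.Agent.TH973.SD (discw)

/-- signs -/
def Sg (X : Fin 3 → ℕ → ℝ) : Prop := ∀ t v, X t v = 1 ∨ X t v = -1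

/-! ### Toolkit -/

/-- WZ-00: Walsh functions and thresholds -/
def S_THR : Prop := ∀ m : ℕ,
  (∃ c : ℕ → ℕ → ℝ, ∑ a ∈ range (2 ^ m), ∑ b ∈ range (2 ^ m), |c a b| ≤ m ∧
    ∀ i j, i < 2 ^ m → j < 2 ^ m → (if i < j then (1 : ℝ) else 0) =
      ∑ a ∈ range (2 ^ m), ∑ b ∈ range (2 ^ m), c a b * (wal m a i * wal m b j)) ∧
  (∃ c : ℕ → ℕ → ℝ, ∑ a ∈ range (2 ^ m), ∑ b ∈ range (2 ^ m), |c a b| ≤ m + 1 ∧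
    ∀ i j, i < 2 ^ m → j < 2 ^ m → (if i ≤ j then (1 : ℝ) else 0) =
      ∑ a ∈ range (2 ^ m), ∑ b ∈ range (2 ^ m), c a b * (wal m a i * wal m b j)) ∧
  (∀ a b, a < 2 ^ m → b < 2 ^ m →
    a ^^^ b < 2 ^ m ∧ ∀ i, wal m (a ^^^ b) i = wal m a i * wal m b i) ∧
  (∀ i, wal m 0 i = 1) ∧ (∀ a i, wal m a i = 1 ∨ wal m a i = -1)

/-- WZ-01: facts on operator norms -/
def S_OPT : Prop :=
  (∀ (I J : ℕ) (M : ℕ → ℕ → ℝ) (κ κ' : ℝ), Op I J M κ → κ ≤ κ' → Op I J M κ') ∧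
  (∀ (I J : ℕ) (M M' : ℕ → ℕ → ℝ) (κ : ℝ), (∀ i < I, ∀ j < J, M i j = M' i j) →
    Op I J M κ → Op I J M' κ) ∧
  (∀ (ι : Type) (S : Finset ι) (c κ : ι → ℝ) (M : ι → ℕ → ℕ → ℝ) (I J : ℕ),
    (∀ a ∈ S, Op I J (M a) (κ a)) →
    Op I J (fun i j => ∑ a ∈ S, c a * M a i j) (∑ a ∈ S, |c a| * κ a)) ∧
  (∀ (I J : ℕ) (M M' : ℕ → ℕ → ℝ) (κ κ' : ℝ), Op I J M κ → Op I J M' κ' →
    Op I J (fun i j => M i j + M' i j) (κ + κ')) ∧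
  (∀ (I J : ℕ) (M : ℕ → ℕ → ℝ) (κ : ℝ) (p q : ℕ → ℝ), 0 ≤ κ → (∀ i < I, |p i| ≤ 1) →
    (∀ j < J, |q j| ≤ 1) → Op I J M κ → Op I J (fun i j => p i * q j * M i j) κ) ∧
  (∀ (I J I' J' : ℕ) (M : ℕ → ℕ → ℝ) (κ : ℝ), I' ≤ I → J' ≤ J → Op I J M κ →
    Op I' J' M κ) ∧
  (∀ (I J : ℕ) (M : ℕ → ℕ → ℝ) (κ : ℝ), Op I J M κ → Op J I (fun j i => M i j) κ) ∧
  (∀ (I J : ℕ) (M : ℕ → ℕ → ℝ) (κ : ℝ), Op I J M κ → ∀ i < I, ∀ j < J, |M i j| ≤ κ) ∧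
  (∀ (I J : ℕ) (M : ℕ → ℕ → ℝ) (κ : ℝ) (x : ℕ → ℝ), Op I J M κ →
    ∑ j ∈ range J, (∑ i ∈ range I, x i * M i j) ^ 2 ≤ κ ^ 2 * ∑ i ∈ range I, x i ^ 2) ∧
  (∀ (I J : ℕ) (M : ℕ → ℕ → ℝ) (κ : ℝ) (z : ℕ → ℝ), Op I J M κ →
    ∑ i ∈ range I, (∑ j ∈ range J, z j * M i j) ^ 2 ≤ κ ^ 2 * ∑ j ∈ range J, z j ^ 2) ∧
  (∀ (I J : ℕ) (M : ℕ → ℕ → ℝ) (κ : ℝ), 0 ≤ κ →
    (∀ x : ℕ → ℝ, ∑ j ∈ range J, (∑ i ∈ range I, x i * M i j) ^ 2 ≤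
      κ ^ 2 * ∑ i ∈ range I, x i ^ 2) → Op I J M κ) ∧
  (∀ (I J L : ℕ) (M N : ℕ → ℕ → ℝ) (κ κ' : ℝ), 0 ≤ κ → 0 ≤ κ' → Op I J M κ → Op J L N κ' →
    Op I L (fun i l => ∑ j ∈ range J, M i j * N j l) (κ * κ')) ∧
  (∀ (I J : ℕ) (M : ℕ → ℕ → ℝ) (κ : ℝ), 0 ≤ κ → (∀ i < I, ∀ j < J, |M i j| ≤ κ) →
    Op I J M (κ * (Real.sqrt I * Real.sqrt J)))

/-! ### The system -/

/-- WZ-C1: algebra of the laws -/
def S_SYS : Prop :=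
  (∀ (y : Ed → ℝ) (s : Ed), (∃ i, s i = 0) → DD y s = 1) ∧
  (∀ (y : Ed → ℝ) (r : Ed), DD y (fun i => r i + 1) = cb (DD y r) (fun t => DD y (up r t))
    (fun t => DD y (up (up r (t + 1)) (t + 2))) + y r) ∧
  (∀ (n : ℕ) (y : Ed → ℝ), (∀ r, ∑ i, r i ≠ n → y r = 0) → ∀ s : Ed, ∑ i, s i < n + 3 →
    DD y s = 1) ∧
  (∀ (X : Fin 3 → ℕ → ℝ) (y : Ed → ℝ) (t : Fin 3) (r : Ed), Sg X → DD y r ≠ 0 →
    DD y (up r t) = DD y r * (1 + X t (r t) * AA X y t r)) ∧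
  (∀ (X : Fin 3 → ℕ → ℝ) (y : Ed → ℝ) (w : Fin 3) (r : Ed), Sg X → DD y r ≠ 0 →
    DD y (up (up r (w + 1)) (w + 2)) = DD y r *
      ((1 + X (w + 1) (r (w + 1)) * AA X y (w + 1) r) *
        (1 + X (w + 2) (r (w + 2)) * AA X y (w + 2) r) +
        X (w + 1) (r (w + 1)) * X (w + 2) (r (w + 2)) * PP X y w r)) ∧
  (∀ (X : Fin 3 → ℕ → ℝ) (y : Ed → ℝ) (r : Ed), Sg X → DD y r ≠ 0 →
    DD y (fun i => r i + 1) = DD y r * (∏ t : Fin 3, (1 + X t (r t) * AA X y t r) +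
      ∑ w : Fin 3, X (w + 1) (r (w + 1)) * X (w + 2) (r (w + 2)) * PP X y w r *
        (1 + X w (r w) * AA X y w r)) + y r) ∧
  (∀ (X : Fin 3 → ℕ → ℝ) (y : Ed → ℝ) (t u : Fin 3) (r : Ed), Sg X → t ≠ u → DD y r ≠ 0 →
    DD y (up r u) ≠ 0 →
    AA X y t (up r u) = AA X y t r +
      X u (r u) * PP X y (thd t u) r / (1 + X u (r u) * AA X y u r)) ∧
  (∀ (X : Fin 3 → ℕ → ℝ) (y : Ed → ℝ) (w : Fin 3) (r : Ed), Sg X → DD y r ≠ 0 →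
    DD y (up r w) ≠ 0 →
    PP X y w (up r w) = PP X y w r -
      PP X y (w + 1) r * PP X y (w + 2) r / (1 + X w (r w) * AA X y w r) ^ 2 +
      X (w + 1) (r (w + 1)) * X (w + 2) (r (w + 2)) * y r / DD y (up r w)) ∧
  (∀ (X : Fin 3 → ℕ → ℝ) (y : Ed → ℝ) (t u : Fin 3) (r : Ed), t ≠ u → r u = 0 →
    AA X y t r = 0) ∧
  (∀ (X : Fin 3 → ℕ → ℝ) (y : Ed → ℝ) (w : Fin 3) (r : Ed), r w = 0 → PP X y w r = 0) ∧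
  (∀ (n : ℕ) (X : Fin 3 → ℕ → ℝ) (y : Ed → ℝ), (∀ r, ∑ i, r i ≠ n → y r = 0) →
    ∀ r : Ed, ∑ i, r i ≤ n → (∀ t, AA X y t r = 0) ∧ ∀ w, PP X y w r = 0) ∧
  (∀ (X : Fin 3 → ℕ → ℝ) (y : Ed → ℝ) (r : Ed), Sg X → DD y r ≠ 0 →
    D3 y r = DD y r * ((∏ t : Fin 3, X t (r t)) *
      (∏ t : Fin 3, AA X y t r + ∑ w : Fin 3, PP X y w r * AA X y w r)) + y r)

/-- WZ-C2: martingale property and predictability -/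
def S_PRED : Prop := ∀ (Ω : Type) (n : ℕ) (T : Fin 3 → ℕ → Ω → Ω) (X : Fin 3 → ℕ → Ω → ℝ)
  (f : Ed → Ω → ℝ) (ρ : ℝ), Hyp n T X f →
  (∀ s : Ed, Pre T s (fun x => DD (yx ρ f x) s)) ∧
  (∀ (s : Ed) (i : Fin 3) (x : Ω), 1 ≤ s i →
    DD (yx ρ f x) s + DD (yx ρ f (T i (s i - 1) x)) s =
      2 * DD (yx ρ f x) (Function.update s i (s i - 1))) ∧
  (∀ (t : Fin 3) (r : Ed), r t ≤ n → Pre T r (fun x => AA (Xx X x) (yx ρ f x) t r)) ∧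
  (∀ (w : Fin 3) (r : Ed), r (w + 1) ≤ n → r (w + 2) ≤ n →
    Pre T r (fun x => PP (Xx X x) (yx ρ f x) w r)) ∧
  (∀ (m : ℕ) (β δ : ℝ) (q : Ed), (∀ i, q i ≤ n) →
    Pre T q (fun x => Cond m β δ (Xx X x) (yx ρ f x) q) ∧
    Pre T q (fun x => Good m β δ (Xx X x) (yx ρ f x) q))

/-! ### Chains -/

/-- WZ-C3: the chain identity -/
def S_CHN : Prop := ∀ (m : ℕ) (X : Fin 3 → ℕ → ℝ) (y : Ed → ℝ) (s : Ed) (γ : ℝ) (t : Fin 3)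
  (Γ : Ker), Sg X → LV m X y s γ → ∀ k j : ℕ,
    TT X y s t Γ k j = FR X y s t Γ k j + TT X y s (t + 1) (S1 X y s t Γ) k j +
      TT X y s (t + 2) (S2 X y s t Γ) k j

/-- WZ-C4: one step of the chain and the norm -/
def S_NST : Prop := ∀ (m : ℕ) (X : Fin 3 → ℕ → ℝ) (y : Ed → ℝ) (s : Ed) (γ ν : ℝ) (t : Fin 3)
  (K : ℕ) (Γ : Ker), (∀ i, s i < 2 ^ m) → 0 ≤ γ → 0 ≤ ν → LV m X y s γ → NN s t K Γ ν →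
    NN s (t + 1) K (S1 X y s t Γ) (((m : ℝ) + 1) ^ 2 * γ * ν) ∧
    NN s (t + 2) K (S2 X y s t Γ) (((m : ℝ) + 1) ^ 2 * γ * ν)

/-- the kernel of the births -/
noncomputable def KB (X : Fin 3 → ℕ → ℝ) (y : Ed → ℝ) (m : ℕ) (t : Fin 3) (a : ℕ) : Ker :=
  fun r k j => if r (t + 1) = k ∧ r (t + 2) = j then
    wal m a (r t) * (y r * ∏ i : Fin 3, X i (r i)) else 0

/-- the discrete derivative of a Walsh function -/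
noncomputable def om (m J b j : ℕ) : ℝ :=
  (if 1 ≤ j then wal m b (j - 1) else 0) - (if j < J then wal m b j else 0)

/-- the kernel of the biases (distinguished coordinate `t + 1`) -/
noncomputable def KA (X : Fin 3 → ℕ → ℝ) (y : Ed → ℝ) (m : ℕ) (s : Ed) (t : Fin 3)
    (v a b : ℕ) : Ker :=
  fun r _ _ => if r t = v then
    wal m a (r (t + 1)) * om m (s (t + 2)) b (r (t + 2)) * gg X y t (t + 1) r else 0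

/-- WZ-C5: the kernel of the births -/
def S_KB : Prop := ∀ (m n : ℕ) (ρ : ℝ) (X : Fin 3 → ℕ → ℝ) (y : Ed → ℝ) (s : Ed) (t : Fin 3)
  (a : ℕ), Sg X → (∀ r, ∑ i, r i ≠ n → y r = 0) → (∀ r, |y r| ≤ ρ) → (∀ i, s i ≤ n) →
  NN s t (n + 1) (KB X y m t a) (ρ * Real.sqrt (n + 1)) ∧
  (∀ b : ℝ, Op (n + 1) (n + 1) (TT X y s t (KB X y m t a)) b →
    Op (s (t + 1) + 1) (s (t + 2) + 1) (fun i j => ∑ τ ∈ range (s t),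
      wal m a τ * (X (t + 1) i * X (t + 2) j * y (cl t (t + 1) τ i j))) b)

/-- WZ-C6: the kernel of the biases -/
def S_KA : Prop := ∀ (m : ℕ) (γ : ℝ) (X : Fin 3 → ℕ → ℝ) (y : Ed → ℝ) (s : Ed) (t : Fin 3)
  (v a b : ℕ), Sg X → (∀ i, s i < 2 ^ m) → 0 ≤ γ → LV m X y s γ → v ≤ s t →
    a < 2 ^ m → b < 2 ^ m →
  (TT X y s (t + 1) (KA X y m s t v a b) 0 0 =
    ∑ i ∈ range (s (t + 1)), ∑ j ∈ range (s (t + 2)), wal m a i * wal m b j *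
      (AA X y t (cl t (t + 1) v (i + 1) (j + 1)) - AA X y t (cl t (t + 1) v (i + 1) j) -
        AA X y t (cl t (t + 1) v i (j + 1)) + AA X y t (cl t (t + 1) v i j))) ∧
  Fl 1 (s (t + 1)) (GK s (t + 1) (fun _ => 1) (fun _ => 1) (KA X y m s t v a b)) γ ∧
  NN s (t + 2) 1 (S1 X y s (t + 1) (KA X y m s t v a b)) (2 * ((m : ℝ) + 1) ^ 2 * γ ^ 2) ∧
  NN s t 1 (S2 X y s (t + 1) (KA X y m s t v a b)) (2 * ((m : ℝ) + 1) ^ 2 * γ ^ 2)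

/-! ### Matrix Freedman inequality -/

/-- WZ-G1: trace inequality -/
def S_TR : Prop := ∀ (ι : Type) [Fintype ι] [DecidableEq ι] (P Q : Matrix ι ι ℝ) (k : ℕ),
  P.transpose = P → Q.transpose = Q →
    ((P * Q) ^ (2 ^ k)).trace ≤ (P ^ (2 ^ k) * Q ^ (2 ^ k)).trace

/-- WZ-G2: Golden-Thompson inequality -/
def S_GT : Prop := ∀ (ι : Type) [Fintype ι] [DecidableEq ι] (A B : Matrix ι ι ℝ),
  A.transpose = A → B.transpose = B →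
    (NormedSpace.exp (A + B)).trace ≤ (NormedSpace.exp A * NormedSpace.exp B).trace

open Classical in
/-- WZ-G3: matrix Freedman inequality for biased signs with predictable coefficients -/
def S_FRD : Prop := ∀ (Ω : Type) [Fintype Ω] [Nonempty Ω] (V K : ℕ) (T : ℕ → Ω → Ω)
  (X α : ℕ → Ω → ℝ) (M : ℕ → Ω → ℕ → ℕ → ℝ) (ν a : ℝ),
  (∀ v x, T v (T v x) = x) → (∀ v x, X v x = 1 ∨ X v x = -1) →
  (∀ v, v < V → ∀ x, X v (T v x) = -X v x) → (∀ v u x, v ≠ u → X v (T u x) = X v x) →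
  (∀ v u x, v ≤ u → α v (T u x) = α v x) → (∀ v u x, v ≤ u → M v (T u x) = M v x) →
  (∀ v x, |α v x| ≤ 1) → 0 < ν → 0 ≤ a →
  E (fun x => if Fl K V (fun k j v => M v x k j) ν ∧
      ¬ Op K K (fun k j => ∑ v ∈ range V, (X v x - α v x) * M v x k j) a
      then ∏ v ∈ range V, (1 + X v x * α v x) else 0) ≤
    4 * ((K : ℝ) + 1) * Real.exp (-(a ^ 2 / (2 * ν ^ 2)))

/-! ### Tails -/

/-- predictable kernels -/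
def PK {Ω : Type} (T : Fin 3 → ℕ → Ω → Ω) (s : Ed) (Γ : Ω → Ker) : Prop :=
  ∀ r : Ed, (∀ i, r i ≤ s i) → Pre T r (fun x => Γ x r)

open Classical in
/-- WZ-T1: tail of the fresh part -/
def S_TAIL : Prop := ∀ (Ω : Type) [Fintype Ω] [Nonempty Ω] (n m K : ℕ) (T : Fin 3 → ℕ → Ω → Ω)
  (X : Fin 3 → ℕ → Ω → ℝ) (f : Ed → Ω → ℝ) (ρ γ ν a : ℝ) (s : Ed) (t : Fin 3) (G : Ω → Prop)
  (Γ : Ω → Ker), Hyp n T X f → (∀ i, s i ≤ n) →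
  (∀ x, G x → LV m (Xx X x) (yx ρ f x) s γ) → PK T s Γ →
  (∀ x, G x → Fl K (s t) (GK s t (fun _ => 1) (fun _ => 1) (Γ x)) ν) → 0 < ν → 0 ≤ a →
  E (fun x => if G x ∧ ¬ Op K K (FR (Xx X x) (yx ρ f x) s t (Γ x)) a
      then DD (yx ρ f x) s else 0) ≤
    4 * ((K : ℝ) + 1) * Real.exp (-(a ^ 2 / (2 * ν ^ 2)))

open Classical in
/-- WZ-T2: iteration -/
def S_ITER : Prop := ∀ (Ω : Type) [Fintype Ω] [Nonempty Ω] (n m K : ℕ) (T : Fin 3 → ℕ → Ω → Ω)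
  (X : Fin 3 → ℕ → Ω → ℝ) (f : Ed → Ω → ℝ) (ρ γ lam : ℝ) (s : Ed) (G : Ω → Prop),
  Hyp n T X f → (∀ i, s i ≤ n) → (∀ i, s i < 2 ^ m) →
  (∀ x, G x → LV m (Xx X x) (yx ρ f x) s γ) → 0 < γ → 0 ≤ lam →
  4 * (((m : ℝ) + 1) ^ 2 * γ) ≤ 1 →
  ∀ (R : ℕ) (t : Fin 3) (Γ : Ω → Ker) (ν : ℝ), PK T s Γ → 0 < ν →
  (∀ x, G x → NN s t K (Γ x) ν) →
  E (fun x => if G x ∧ ¬ Op K K (TT (Xx X x) (yx ρ f x) s t (Γ x))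
      (2 * lam * ν + (2 * (((m : ℝ) + 1) ^ 2 * γ)) ^ R * (2 * ((n : ℝ) + 1) ^ 3 * (K + 1)) * ν)
      then DD (yx ρ f x) s else 0) ≤
    2 ^ R * (4 * ((K : ℝ) + 1) * Real.exp (-(lam ^ 2 / 2)))

/-- the conditions on the parameters -/
structure Prm (n m R : ℕ) (ρ β δ γ lam : ℝ) : Prop where
  m1 : n + 2 ≤ 2 ^ m
  m2 : 2 ^ m ≤ 2 * (n + 2)
  rho0 : 0 < ρ
  lam1 : 1 ≤ lam
  b1 : β = 16 * lam * (ρ * Real.sqrt ((n : ℝ) + 2))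
  g1 : γ = 64 * β
  d1 : δ = 2 ^ 14 * (((m : ℝ) + 1) ^ 8 * (lam * γ))
  small : 2 ^ 20 * (((m : ℝ) + 1) ^ 12 * δ) ≤ 1
  rem : (2 * (((m : ℝ) + 1) ^ 2 * γ)) ^ R * (8 * ((n : ℝ) + 2) ^ 5) ≤ 1

/-- WZ-N: the deterministic bounds -/
def S_DET : Prop := ∀ (n m R : ℕ) (ρ β δ γ lam : ℝ) (X : Fin 3 → ℕ → ℝ) (y : Ed → ℝ),
  Prm n m R ρ β δ γ lam → Sg X → (∀ r, ∑ i, r i ≠ n → y r = 0) → (∀ r, |y r| ≤ ρ) →
  ∀ q : Ed, (∀ i, q i ≤ n) → Good m β δ X y q →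
    (∀ s : Ed, (∀ i, s i ≤ q i + 1) → 0 < DD y s) ∧
    (∀ r : Ed, (∀ i, r i ≤ q i) → ∀ t, |AA X y t r| ≤ 1 / 50 ∧ |PP X y t r| ≤ 1 / 50) ∧
    (∀ s : Ed, (∀ i, s i ≤ n) → (∀ i, s i ≤ q i + 1) → (∀ i, q i ≤ s i) → LV m X y s γ)

open Classical in
/-- WZ-T3: the births at the first violation -/
def S_VB : Prop := ∀ (Ω : Type) [Fintype Ω] [Nonempty Ω] (n m R : ℕ) (T : Fin 3 → ℕ → Ω → Ω)
  (X : Fin 3 → ℕ → Ω → ℝ) (f : Ed → Ω → ℝ) (ρ β δ γ lam : ℝ) (s : Ed) (t : Fin 3) (a : ℕ)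
  (G : Ω → Prop), Hyp n T X f → (∀ i, s i ≤ n) → Prm n m R ρ β δ γ lam → a < 2 ^ m →
  (∀ x, G x → LV m (Xx X x) (yx ρ f x) s γ) →
  E (fun x => if G x ∧ ¬ Op (s (t + 1) + 1) (s (t + 2) + 1) (fun i j => ∑ τ ∈ range (s t),
      wal m a τ * (Xx X x (t + 1) i * Xx X x (t + 2) j * yx ρ f x (cl t (t + 1) τ i j))) β
      then DD (yx ρ f x) s else 0) ≤
    2 ^ R * (4 * ((n : ℝ) + 2) * Real.exp (-(lam ^ 2 / 2)))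

open Classical in
/-- WZ-T4: the biases at the first violation -/
def S_VA : Prop := ∀ (Ω : Type) [Fintype Ω] [Nonempty Ω] (n m R : ℕ) (T : Fin 3 → ℕ → Ω → Ω)
  (X : Fin 3 → ℕ → Ω → ℝ) (f : Ed → Ω → ℝ) (ρ β δ γ lam : ℝ) (s : Ed) (t : Fin 3) (v a b : ℕ)
  (G : Ω → Prop), Hyp n T X f → (∀ i, s i ≤ n) → Prm n m R ρ β δ γ lam → v ≤ s t →
  a < 2 ^ m → b < 2 ^ m → (∀ x, G x → LV m (Xx X x) (yx ρ f x) s γ) →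
  E (fun x => if G x ∧ ¬ (|∑ i ∈ range (s (t + 1)), ∑ j ∈ range (s (t + 2)),
      wal m a i * wal m b j *
      (AA (Xx X x) (yx ρ f x) t (cl t (t + 1) v (i + 1) (j + 1)) -
        AA (Xx X x) (yx ρ f x) t (cl t (t + 1) v (i + 1) j) -
        AA (Xx X x) (yx ρ f x) t (cl t (t + 1) v i (j + 1)) +
        AA (Xx X x) (yx ρ f x) t (cl t (t + 1) v i j))| ≤ δ)
      then DD (yx ρ f x) s else 0) ≤
    2 ^ (R + 2) * (8 * Real.exp (-(lam ^ 2 / 2)))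

/-- the bound for the first violation -/
noncomputable def VV (n R : ℕ) (lam : ℝ) : ℝ :=
  2 ^ R * (1000 * ((n : ℝ) + 2) ^ 3 * Real.exp (-(lam ^ 2 / 2)))

open Classical in
/-- WZ-T5: the first violation -/
def S_V : Prop := ∀ (Ω : Type) [Fintype Ω] [Nonempty Ω] (n m R : ℕ) (T : Fin 3 → ℕ → Ω → Ω)
  (X : Fin 3 → ℕ → Ω → ℝ) (f : Ed → Ω → ℝ) (ρ β δ γ lam : ℝ) (s : Ed), Hyp n T X f →
  (∀ i, s i ≤ n) → Prm n m R ρ β δ γ lam →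
  E (fun x => if Good m β δ (Xx X x) (yx ρ f x) (fun i => s i - 1) ∧
      ¬ Cond m β δ (Xx X x) (yx ρ f x) s then DD (yx ρ f x) s else 0) ≤ VV n R lam

/-! ### The norm of the test function -/

open Classical in
/-- WZ-L1: masses decrease -/
def S_MASS : Prop := ∀ (Ω : Type) [Fintype Ω] [Nonempty Ω] (n m : ℕ) (T : Fin 3 → ℕ → Ω → Ω)
  (X : Fin 3 → ℕ → Ω → ℝ) (f : Ed → Ω → ℝ) (ρ β δ : ℝ), Hyp n T X f →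
  (∀ x (q s : Ed), (∀ i, q i ≤ n) → Good m β δ (Xx X x) (yx ρ f x) q →
    (∀ i, s i ≤ q i + 1) → 0 ≤ DD (yx ρ f x) s) →
  ∀ (s s' : Ed) (g : Ω → ℝ), (∀ i, s i ≤ n + 1) → (∀ i, s' i ≤ s i) → (∀ x, 0 ≤ g x) →
    Pre T s' g →
    E (fun x => if Good m β δ (Xx X x) (yx ρ f x) (fun i => s i - 1)
      then DD (yx ρ f x) s * g x else 0) ≤
    E (fun x => if Good m β δ (Xx X x) (yx ρ f x) (fun i => s' i - 1)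
      then DD (yx ρ f x) s' * g x else 0)

/-- the corners at the boundary of a set of cells -/
def bd (n : ℕ) (S : Set Ed) (s : Ed) : Prop :=
  (fun i => min (s i) n) ∉ S ∧ ∃ r ∈ S, (∀ i, r i ≤ s i) ∧ ∀ i, s i ≤ r i + 1

open Classical in
/-- WZ-L2: Möbius inversion on sets of cells -/
def S_MOEB : Prop := ∀ (n : ℕ) (S : Set Ed) (D : Ed → ℝ), (∀ r ∈ S, ∀ i, r i ≤ n) →
  (∀ r ∈ S, ∀ r' : Ed, (∀ i, r' i ≤ r i) → r' ∈ S) → (fun _ => 0) ∈ S →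
  (∀ s : Ed, (∃ i, s i = 0) → D s = 1) →
  ((fun _ => n) ∈ S → 1 + ∑ r ∈ cells (fun _ => n), (if r ∈ S then d3 D r else 0) =
    D (fun _ => n + 1)) ∧
  ((fun _ => n) ∉ S → |1 + ∑ r ∈ cells (fun _ => n), (if r ∈ S then d3 D r else 0)| ≤
    14 * ∑ s ∈ cells (fun _ => n + 1), if bd n S s then |D s| else 0)

open Classical in
/-- WZ-L3: the norm of the test function -/
def S_L1 : Prop := ∀ (Ω : Type) [Fintype Ω] [Nonempty Ω] (n m : ℕ) (T : Fin 3 → ℕ → Ω → Ω)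
  (X : Fin 3 → ℕ → Ω → ℝ) (f : Ed → Ω → ℝ) (ρ β δ τ : ℝ), Hyp n T X f → 0 ≤ β → 0 ≤ δ →
  (∀ x (q s : Ed), (∀ i, q i ≤ n) → Good m β δ (Xx X x) (yx ρ f x) q →
    (∀ i, s i ≤ q i + 1) → 0 ≤ DD (yx ρ f x) s) →
  (∀ s : Ed, (∀ i, s i ≤ n) →
    E (fun x => if Good m β δ (Xx X x) (yx ρ f x) (fun i => s i - 1) ∧
      ¬ Cond m β δ (Xx X x) (yx ρ f x) s then DD (yx ρ f x) s else 0) ≤ τ) →
  E (fun x => |Psi n m ρ β δ X f x|) ≤ 1 + 14 * ((n : ℝ) + 2) ^ 6 * τ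

/-! ### Pairing -/

/-- WZ-W1: sup bound for the higher components -/
def S_WIN : Prop := ∀ (n : ℕ) (ρ η : ℝ) (X : Fin 3 → ℕ → ℝ) (y : Ed → ℝ), Sg X →
  (∀ r, ∑ i, r i ≠ n → y r = 0) → (∀ r, |y r| ≤ ρ) → 0 < ρ → ρ ≤ 1 / 50 → η ≤ 1 / 50 →
  ∀ q : Ed, (∀ s : Ed, (∀ i, s i ≤ q i) → 0 < DD y s) →
    (∀ r : Ed, (∀ i, r i ≤ q i) → ∀ t, |AA X y t r| ≤ η ∧ |PP X y t r| ≤ η) →
    ∀ k : ℕ, 1 ≤ k → ∑ i, q i = n + k →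
      |D3 y q| ≤ 20 * ((k : ℝ) + 1) ^ 3 * ρ ^ 2 * (11 / 10) ^ k

/-- WZ-W2: the pairing with the discrepancy -/
def S_PAIR : Prop := ∀ (n m : ℕ) (ρ β δ : ℝ) (ι : Type) (P : Finset ι) (w : ι → ℝ) (V : ℝ)
  (o : ι → Fin 3 → ℕ) (u : Fin 3 → ℝ), 0 < ρ → 60000 * ρ ≤ 1 → 0 ≤ β → 0 ≤ δ →
  2 * P.card ≤ 2 ^ n → (2 : ℝ) ^ n ≤ 4 * V → V ≤ 2 ^ n →
  (∀ (x : Om 3 n) (q : Ed), (∀ i, q i ≤ n) →
    Good m β δ (Xx rad x) (yx ρ (fE P o) x) q →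
    (∀ s : Ed, (∀ i, s i ≤ q i) → 0 < DD (yx ρ (fE P o) x) s) ∧
    ∀ r : Ed, (∀ i, r i ≤ q i) → ∀ t, |AA (Xx rad x) (yx ρ (fE P o) x) t r| ≤ 1 / 50 ∧
      |PP (Xx rad x) (yx ρ (fE P o) x) t r| ≤ 1 / 50) →
  (∀ (x : Om 3 n) (q : Ed), ∑ i, q i ≤ n → Good m β δ (Xx rad x) (yx ρ (fE P o) x) q) →
  ((n : ℝ) + 1) ^ 2 * ρ / 2048 ≤
    E (fun x : Om 3 n => discw P w V o u x * (Psi n m ρ β δ rad (fE P o) x - 1))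

/-- WZ-W2b: all cells of order at most `n` are good -/
def S_G0 : Prop := ∀ (n m : ℕ) (β δ : ℝ) (X : Fin 3 → ℕ → ℝ) (y : Ed → ℝ), 0 ≤ β → 0 ≤ δ →
  (∀ r, ∑ i, r i ≠ n → y r = 0) → ∀ q : Ed, ∑ i, q i ≤ n → Good m β δ X y q

/-- WZ-W3: the concrete system satisfies the hypotheses -/
def S_HYP : Prop := ∀ (n : ℕ) (ι : Type) (P : Finset ι) (o : ι → Fin 3 → ℕ),
  Hyp n (fun c k (x : Om 3 n) => flp c k x) rad (fE P o)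

/-- WZ-W4: choice of the parameters -/
def S_NUM : Prop := ∀ ε : ℝ, 0 < ε → ∃ n0 R : ℕ, ∀ n : ℕ, n0 ≤ n →
  ∃ (m : ℕ) (β δ γ lam : ℝ), Prm n m R (((n : ℝ) + 1) ^ (-(1 / 2) - ε)) β δ γ lam ∧
    14 * ((n : ℝ) + 2) ^ 6 * VV n R lam ≤ 1 ∧ 60000 * ((n : ℝ) + 1) ^ (-(1 / 2) - ε) ≤ 1

/-- WZ-W5: the main statement on the grid -/
def S_CORE : Prop := ∀ ε : ℝ, 0 < ε → ∃ n0 : ℕ, ∀ n : ℕ, n0 ≤ n →
  ∀ (ι : Type) (P : Finset ι) (w : ι → ℝ) (V : ℝ) (o : ι → Fin 3 → ℕ) (u : Fin 3 → ℝ),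
    2 * P.card ≤ 2 ^ n → (2 : ℝ) ^ n ≤ 4 * V → V ≤ 2 ^ n →
    ∃ x : Om 3 n, ((n : ℝ) + 1) ^ (3 / 2 - ε) / 8192 ≤ |discw P w V o u x|

end Pool.Agent.NH99.WZ
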