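import Pool.Agent.NH99.WZ.StmC
import Mathlib.Analysis.Normed.Algebra.MatrixExponential
import Mathlib.Analysis.Matrix.Spectrum
import Mathlib.Probability.Moments.SubGaussian
import Mathlib.Analysis.Convex.SpecificFunctions.Basic

set_option autoImplicit false

/-!
# Project WZ: the matrix Freedman inequality for biased signs
-/

namespace Pool.Agent.NH99.WZ

open Finset Matrix
open Pool.Agent.H397R2.SD (E)

namespace Frd

section alg

variable {ι : Type} [Fintype ι] [DecidableEq ι]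

lemma diag_of_symm (H : Matrix ι ι ℝ) (hH : H.transpose = H) :
    ∃ (U : Matrix ι ι ℝ) (d : ι → ℝ), U * U.transpose = 1 ∧ U.transpose * U = 1 ∧
      H = U * diagonal d * U.transpose := by
  have h : H.IsHermitian := by
    rw [Matrix.IsHermitian, Matrix.conjTranspose_eq_transpose_of_trivial]
    exact hH
  have h1 : star (h.eigenvectorUnitary : Matrix ι ι ℝ) =
      (h.eigenvectorUnitary : Matrix ι ι ℝ).transpose := by
    rw [Matrix.star_eq_conjTranspose, Matrix.conjTranspose_eq_transpose_of_trivial]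
  refine ⟨h.eigenvectorUnitary, h.eigenvalues, ?_, ?_, ?_⟩
  · rw [← h1]
    exact Unitary.mul_star_self_of_mem h.eigenvectorUnitary.2
  · rw [← h1]
    exact Unitary.star_mul_self_of_mem h.eigenvectorUnitary.2
  · have h2 := h.spectral_theorem
    rw [Unitary.conjStarAlgAut_apply] at h2
    rw [← h1]
    exact h2

lemma exp_diag (U : Matrix ι ι ℝ) (d : ι → ℝ) (h1 : U * U.transpose = 1) :
    NormedSpace.exp (U * diagonal d * U.transpose) =
      U * diagonal (fun i => Real.exp (d i)) * U.transpose := by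
  have h2 : U⁻¹ = U.transpose := Matrix.inv_eq_right_inv h1
  have h3 : IsUnit U := by
    rw [Matrix.isUnit_iff_isUnit_det]
    have := congrArg Matrix.det h1
    rw [Matrix.det_mul, Matrix.det_one] at this
    exact IsUnit.of_mul_eq_one _ this
  rw [← h2, Matrix.exp_conj U _ h3, Matrix.exp_diagonal]
  congr 3
  funext i
  rw [Pi.coe_exp, Real.exp_eq_exp_ℝ]

lemma tr_expand (U V : Matrix ι ι ℝ) (c e : ι → ℝ) :
    (V * diagonal e * V.transpose * (U * diagonal c * U.transpose)).trace =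
      ∑ i, ∑ j, e i * c j * ((V.transpose * U) i j) ^ 2 := by
  have h1 : V * diagonal e * V.transpose * (U * diagonal c * U.transpose) =
      V * (diagonal e * (V.transpose * U) * diagonal c * U.transpose) := by
    simp only [Matrix.mul_assoc]
  have h2 : diagonal e * (V.transpose * U) * diagonal c * U.transpose * V =
      diagonal e * (V.transpose * U) * diagonal c * (V.transpose * U).transpose := by
    rw [Matrix.transpose_mul, Matrix.transpose_transpose]
    simp only [Matrix.mul_assoc]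
  rw [h1, Matrix.trace_mul_comm, h2, Matrix.trace]
  refine Finset.sum_congr rfl fun i _ => ?_
  rw [Matrix.diag_apply, Matrix.mul_apply]
  refine Finset.sum_congr rfl fun j _ => ?_
  rw [Matrix.mul_diagonal, Matrix.diagonal_mul, Matrix.transpose_apply]
  ring

lemma tr_nonneg (U V : Matrix ι ι ℝ) (c e : ι → ℝ) (hc : ∀ i, 0 ≤ c i) (he : ∀ i, 0 ≤ e i) :
    0 ≤ (V * diagonal e * V.transpose * (U * diagonal c * U.transpose)).trace := by
  rw [tr_expand]
  exact Finset.sum_nonneg fun i _ => Finset.sum_nonneg fun j _ =>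
    mul_nonneg (mul_nonneg (he i) (hc j)) (sq_nonneg _)

open MeasureTheory ProbabilityTheory in
lemma hoeff (α θ : ℝ) (hα : |α| ≤ 1) :
    (1 + α) * Real.exp (θ * (1 - α)) + (1 - α) * Real.exp (θ * (-1 - α)) ≤
      2 * Real.exp (θ ^ 2 / 2) := by
  have hα' := abs_le.1 hα
  have hp : (0 : ℝ) ≤ (1 + α) / 2 := by linarith
  have hq : (0 : ℝ) ≤ (1 - α) / 2 := by linarith
  let μ : Measure ℝ := ENNReal.ofReal ((1 + α) / 2) • Measure.dirac 1 +
    ENNReal.ofReal ((1 - α) / 2) • Measure.dirac (-1)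
  have hint : ∀ g : ℝ → ℝ, ∫ y, g y ∂μ = (1 + α) / 2 * g 1 + (1 - α) / 2 * g (-1) := by
    intro g
    have i1 : Integrable g (ENNReal.ofReal ((1 + α) / 2) • Measure.dirac 1) :=
      (integrable_dirac (by simp)).smul_measure ENNReal.ofReal_ne_top
    have i2 : Integrable g (ENNReal.ofReal ((1 - α) / 2) • Measure.dirac (-1)) :=
      (integrable_dirac (by simp)).smul_measure ENNReal.ofReal_ne_top
    rw [integral_add_measure i1 i2, integral_smul_measure, integral_smul_measure,
      integral_dirac, integral_dirac, ENNReal.toReal_ofReal hp, ENNReal.toReal_ofReal hq,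
      smul_eq_mul, smul_eq_mul]
  have hprob : IsProbabilityMeasure μ := by
    constructor
    rw [Measure.add_apply, Measure.smul_apply, Measure.smul_apply, measure_univ, measure_univ,
      smul_eq_mul, smul_eq_mul, mul_one, mul_one, ← ENNReal.ofReal_add hp hq]
    rw [show (1 + α) / 2 + (1 - α) / 2 = 1 by ring, ENNReal.ofReal_one]
  have hb : ∀ᵐ ω ∂μ, (id ω : ℝ) ∈ Set.Icc (-1 : ℝ) 1 := by
    rw [ae_add_measure_iff]
    constructor
    · refine Measure.ae_smul_measure ?_ _
      rw [ae_dirac_eq]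
      simp
    · refine Measure.ae_smul_measure ?_ _
      rw [ae_dirac_eq]
      simp
  have h1 := (hasSubgaussianMGF_of_mem_Icc (μ := μ) aemeasurable_id hb).mgf_le θ
  have h2 : ∫ y, id y ∂μ = α := by
    rw [hint]
    simp only [id]
    ring
  rw [h2, mgf, hint] at h1
  have h3 : ((((‖(1 : ℝ) - -1‖₊ / 2) ^ 2 : NNReal)) : ℝ) * θ ^ 2 / 2 = θ ^ 2 / 2 := by
    have : ‖(1 : ℝ) - -1‖₊ = 2 := by
      rw [← NNReal.coe_inj, coe_nnnorm]
      norm_num
    rw [this]
    simp
  rw [h3] at h1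
  simp only [id] at h1
  linarith

lemma key (hGT : S_GT) (H m : Matrix ι ι ℝ) (hH : H.transpose = H) (hm : m.transpose = m)
    (α lam : ℝ) (hα : |α| ≤ 1) :
    (1 + α) * (NormedSpace.exp (H + ((lam * (1 - α)) • m - (lam ^ 2 / 2) • (m * m)))).trace +
      (1 - α) * (NormedSpace.exp (H + ((lam * (-1 - α)) • m - (lam ^ 2 / 2) • (m * m)))).trace ≤
      2 * (NormedSpace.exp H).trace := by
  obtain ⟨U, d, hU, hU', hmd⟩ := diag_of_symm m hm
  obtain ⟨V, e, hV, hV', hHe⟩ := diag_of_symm H hH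
  have hmm : m * m = U * diagonal (fun i => d i * d i) * U.transpose := by
    rw [hmd]
    have : U * diagonal d * U.transpose * (U * diagonal d * U.transpose) =
        U * (diagonal d * (U.transpose * U) * diagonal d) * U.transpose := by
      simp only [Matrix.mul_assoc]
    rw [this, hU', Matrix.mul_one, Matrix.diagonal_mul_diagonal]
  have hB : ∀ c : ℝ, c • m - (lam ^ 2 / 2) • (m * m) =
      U * diagonal (fun i => c * d i - lam ^ 2 / 2 * (d i * d i)) * U.transpose := by
    intro c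
    rw [hmm, hmd]
    have h1 : (diagonal (fun i => c * d i - lam ^ 2 / 2 * (d i * d i)) : Matrix ι ι ℝ) =
        c • diagonal d - (lam ^ 2 / 2) • diagonal (fun i => d i * d i) := by
      ext i j
      by_cases h : i = j
      · subst h
        simp
      · simp [h]
    rw [h1, Matrix.mul_sub, Matrix.sub_mul, Matrix.mul_smul, Matrix.smul_mul, Matrix.mul_smul,
      Matrix.smul_mul]
  have hBt : ∀ c : ℝ, (c • m - (lam ^ 2 / 2) • (m * m)).transpose =
      c • m - (lam ^ 2 / 2) • (m * m) := by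
    intro c
    rw [Matrix.transpose_sub, Matrix.transpose_smul, Matrix.transpose_smul, Matrix.transpose_mul,
      hm]
  have hG : ∀ c : ℝ, (NormedSpace.exp (H + (c • m - (lam ^ 2 / 2) • (m * m)))).trace ≤
      (V * diagonal (fun i => Real.exp (e i)) * V.transpose *
        (U * diagonal (fun i => Real.exp (c * d i - lam ^ 2 / 2 * (d i * d i))) *
          U.transpose)).trace := by
    intro c
    have h1 := hGT ι H (c • m - (lam ^ 2 / 2) • (m * m)) hH (hBt c)
    refine h1.trans (le_of_eq ?_)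
    rw [hB c, exp_diag _ _ hU]
    conv_lhs => rw [hHe, exp_diag _ _ hV]
  have hα' := abs_le.1 hα
  have h1 := mul_le_mul_of_nonneg_left (hG (lam * (1 - α))) (by linarith : (0 : ℝ) ≤ 1 + α)
  have h2 := mul_le_mul_of_nonneg_left (hG (lam * (-1 - α))) (by linarith : (0 : ℝ) ≤ 1 - α)
  have h3 := tr_nonneg U V (fun i => 2 - ((1 + α) *
    Real.exp (lam * (1 - α) * d i - lam ^ 2 / 2 * (d i * d i)) + (1 - α) *
    Real.exp (lam * (-1 - α) * d i - lam ^ 2 / 2 * (d i * d i)))) (fun i => Real.exp (e i))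
    (by
      intro i
      have h4 := hoeff α (lam * d i) hα
      have h5 : ∀ c : ℝ, Real.exp (lam * c * d i - lam ^ 2 / 2 * (d i * d i)) =
          Real.exp (lam * d i * c) * Real.exp (-((lam * d i) ^ 2 / 2)) := by
        intro c
        rw [← Real.exp_add]
        congr 1
        ring
      have h6 : Real.exp ((lam * d i) ^ 2 / 2) * Real.exp (-((lam * d i) ^ 2 / 2)) = 1 := by
        rw [← Real.exp_add, add_neg_cancel, Real.exp_zero]
      have h7 := mul_le_mul_of_nonneg_right h4 (Real.exp_pos (-((lam * d i) ^ 2 / 2))).le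
      rw [h5, h5]
      nlinarith [h7, h6])
    (fun i => (Real.exp_pos _).le)
  have h4 : (NormedSpace.exp H).trace = (V * diagonal (fun i => Real.exp (e i)) * V.transpose *
      (U * diagonal (fun _ => (1 : ℝ)) * U.transpose)).trace := by
    rw [Matrix.diagonal_one, Matrix.mul_one, hU, Matrix.mul_one, ← exp_diag _ _ hV, ← hHe]
  rw [tr_expand] at h1 h2 h3 h4
  rw [h4]
  have h5 : (∑ i, ∑ j, Real.exp (e i) * (2 - ((1 + α) *
      Real.exp (lam * (1 - α) * d j - lam ^ 2 / 2 * (d j * d j)) + (1 - α) *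
      Real.exp (lam * (-1 - α) * d j - lam ^ 2 / 2 * (d j * d j)))) *
        ((V.transpose * U) i j) ^ 2) =
      2 * (∑ i, ∑ j, Real.exp (e i) * 1 * ((V.transpose * U) i j) ^ 2) -
      ((1 + α) * ∑ i, ∑ j, Real.exp (e i) *
        Real.exp (lam * (1 - α) * d j - lam ^ 2 / 2 * (d j * d j)) *
          ((V.transpose * U) i j) ^ 2) -
      ((1 - α) * ∑ i, ∑ j, Real.exp (e i) *
        Real.exp (lam * (-1 - α) * d j - lam ^ 2 / 2 * (d j * d j)) *
          ((V.transpose * U) i j) ^ 2) := by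
    simp only [Finset.mul_sum]
    rw [← Finset.sum_sub_distrib, ← Finset.sum_sub_distrib]
    refine Finset.sum_congr rfl fun i _ => ?_
    rw [← Finset.sum_sub_distrib, ← Finset.sum_sub_distrib]
    refine Finset.sum_congr rfl fun j _ => ?_
    ring
  rw [h5] at h3
  linarith

lemma tr_exp (H : Matrix ι ι ℝ) (hH : H.transpose = H) (u : ι → ℝ) (hu : ∑ i, u i ^ 2 = 1) :
    Real.exp (u ⬝ᵥ (H *ᵥ u)) ≤ (NormedSpace.exp H).trace := by
  obtain ⟨U, d, hU, hU', hd⟩ := diag_of_symm H hH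
  have h1 : (NormedSpace.exp H).trace = ∑ i, Real.exp (d i) := by
    rw [hd, exp_diag _ _ hU, Matrix.mul_assoc, Matrix.trace_mul_comm, Matrix.mul_assoc, hU',
      Matrix.mul_one, Matrix.trace_diagonal]
  set w : ι → ℝ := U.transpose *ᵥ u with hw
  have h2 : ∑ i, w i ^ 2 = 1 := by
    have h3 : ∑ i, w i ^ 2 = w ⬝ᵥ w := by
      rw [dotProduct]
      exact Finset.sum_congr rfl fun i _ => sq _
    have h4 : w ⬝ᵥ w = u ⬝ᵥ u := by
      rw [hw, Matrix.dotProduct_mulVec, Matrix.vecMul_transpose, Matrix.mulVec_mulVec, hU,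
        Matrix.one_mulVec]
    rw [h3, h4, dotProduct, ← hu]
    exact Finset.sum_congr rfl fun i _ => (sq _).symm
  have h3 : u ⬝ᵥ (H *ᵥ u) = ∑ i, w i ^ 2 * d i := by
    have h4 : H *ᵥ u = U *ᵥ (diagonal d *ᵥ w) := by
      rw [hw, Matrix.mulVec_mulVec, Matrix.mulVec_mulVec, ← hd]
    have h5 : u ⬝ᵥ (U *ᵥ (diagonal d *ᵥ w)) = w ⬝ᵥ (diagonal d *ᵥ w) := by
      rw [Matrix.dotProduct_mulVec, ← Matrix.mulVec_transpose]
    rw [h4, h5, dotProduct]
    refine Finset.sum_congr rfl fun i _ => ?_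
    rw [Matrix.mulVec_diagonal]
    ring
  have h4 := convexOn_exp.map_sum_le (t := Finset.univ) (w := fun i => w i ^ 2) (p := d)
    (fun i _ => sq_nonneg _) h2 (fun i _ => Set.mem_univ _)
  simp only [smul_eq_mul] at h4
  rw [h1, h3]
  refine h4.trans (Finset.sum_le_sum fun i _ => ?_)
  have h5 : w i ^ 2 ≤ 1 := by
    rw [← h2]
    exact Finset.single_le_sum (f := fun i => w i ^ 2) (fun i _ => sq_nonneg _)
      (Finset.mem_univ i)
  calc w i ^ 2 * Real.exp (d i) ≤ 1 * Real.exp (d i) :=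
        mul_le_mul_of_nonneg_right h5 (Real.exp_pos _).le
    _ = Real.exp (d i) := one_mul _

lemma tr_exp_nonneg (H : Matrix ι ι ℝ) (hH : H.transpose = H) :
    0 ≤ (NormedSpace.exp H).trace := by
  obtain ⟨U, d, hU, hU', hd⟩ := diag_of_symm H hH
  have h1 : (NormedSpace.exp H).trace = ∑ i, Real.exp (d i) := by
    rw [hd, exp_diag _ _ hU, Matrix.mul_assoc, Matrix.trace_mul_comm, Matrix.mul_assoc, hU',
      Matrix.mul_one, Matrix.trace_diagonal]
  rw [h1]
  exact Finset.sum_nonneg fun i _ => (Real.exp_pos _).le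

end alg

/-! ### The supermartingale -/

section mart

variable {Ω : Type} [Fintype Ω] {V K : ℕ} (T : ℕ → Ω → Ω) (X α : ℕ → Ω → ℝ)
  (M : ℕ → Ω → ℕ → ℕ → ℝ) (lam : ℝ)

/-- the `K` by `K` block of `M v x` -/
def AM (K : ℕ) (M : ℕ → Ω → ℕ → ℕ → ℝ) (v : ℕ) (x : Ω) : Matrix (Fin K) (Fin K) ℝ :=
  Matrix.of fun k j => M v x k j

/-- the symmetric dilation -/
def mm (K : ℕ) (M : ℕ → Ω → ℕ → ℕ → ℝ) (v : ℕ) (x : Ω) :
    Matrix (Fin K ⊕ Fin K) (Fin K ⊕ Fin K) ℝ :=
  Matrix.fromBlocks 0 (AM K M v x) (AM K M v x).transpose 0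

omit [Fintype Ω] in
lemma mm_symm (v : ℕ) (x : Ω) : (mm K M v x).transpose = mm K M v x := by
  rw [mm, Matrix.fromBlocks_transpose, Matrix.transpose_zero, Matrix.transpose_transpose]

/-- the exponent -/
noncomputable def HH (K : ℕ) (j : ℕ) (x : Ω) : Matrix (Fin K ⊕ Fin K) (Fin K ⊕ Fin K) ℝ :=
  ∑ v ∈ range j, ((lam * (X v x - α v x)) • mm K M v x -
    (lam ^ 2 / 2) • (mm K M v x * mm K M v x))

/-- the weight -/
noncomputable def WW (j : ℕ) (x : Ω) : ℝ := ∏ v ∈ range j, (1 + X v x * α v x)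

omit [Fintype Ω] in
lemma HH_symm (j : ℕ) (x : Ω) :
    (HH X α M lam K j x).transpose = HH X α M lam K j x := by
  rw [HH, Matrix.transpose_sum]
  refine Finset.sum_congr rfl fun v _ => ?_
  rw [Matrix.transpose_sub, Matrix.transpose_smul, Matrix.transpose_smul, Matrix.transpose_mul,
    mm_symm]

lemma claim (hGT : S_GT) (hinv : ∀ v x, T v (T v x) = x) (hX : ∀ v x, X v x = 1 ∨ X v x = -1)
    (hodd : ∀ v, v < V → ∀ x, X v (T v x) = -X v x)
    (hXf : ∀ v u x, v ≠ u → X v (T u x) = X v x)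
    (hαf : ∀ v u x, v ≤ u → α v (T u x) = α v x)
    (hMf : ∀ v u x, v ≤ u → M v (T u x) = M v x)
    (hα : ∀ v x, |α v x| ≤ 1) (j : ℕ) (hj : j ≤ V) :
    ∑ x, WW X α j x * (NormedSpace.exp (HH X α M lam K j x)).trace ≤
      2 * (K : ℝ) * Fintype.card Ω := by
  induction j with
  | zero =>
    have h1 : ∀ x : Ω, WW X α 0 x * (NormedSpace.exp (HH X α M lam K 0 x)).trace =
        2 * (K : ℝ) := by
      intro x
      rw [WW, HH, Finset.range_zero, Finset.prod_empty, Finset.sum_empty, NormedSpace.exp_zero,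
        Matrix.trace_one, Fintype.card_sum, Fintype.card_fin, one_mul]
      push_cast
      ring
    rw [Finset.sum_congr rfl fun x _ => h1 x, Finset.sum_const, Finset.card_univ, nsmul_eq_mul]
    exact le_of_eq (mul_comm _ _)
  | succ j ih =>
    refine le_trans ?_ (ih (by omega))
    have hWf : ∀ x, WW X α j (T j x) = WW X α j x := by
      intro x
      refine Finset.prod_congr rfl fun v hv => ?_
      have hv' := Finset.mem_range.1 hv
      rw [hXf v j x hv'.ne, hαf v j x hv'.le]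
    have hmf : ∀ v x, v ≤ j → mm K M v (T j x) = mm K M v x := by
      intro v x hv
      rw [mm, mm, AM, AM, hMf v j x hv]
    have hHf : ∀ x, HH X α M lam K j (T j x) = HH X α M lam K j x := by
      intro x
      refine Finset.sum_congr rfl fun v hv => ?_
      have hv' := Finset.mem_range.1 hv
      rw [hXf v j x hv'.ne, hαf v j x hv'.le, hmf v x hv'.le]
    have hW0 : ∀ x, 0 ≤ WW X α j x := by
      intro x
      refine Finset.prod_nonneg fun v _ => ?_
      have h1 := abs_le.1 (hα v x)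
      rcases hX v x with h | h
      · rw [h]; linarith [h1.1]
      · rw [h]; linarith [h1.2]
    let G : Ω → ℝ := fun x => WW X α (j + 1) x *
      (NormedSpace.exp (HH X α M lam K (j + 1) x)).trace
    have hG : ∀ x, G x = WW X α j x * ((1 + X j x * α j x) *
        (NormedSpace.exp (HH X α M lam K j x + ((lam * (X j x - α j x)) • mm K M j x -
          (lam ^ 2 / 2) • (mm K M j x * mm K M j x)))).trace) := by
      intro x
      change WW X α (j + 1) x * (NormedSpace.exp (HH X α M lam K (j + 1) x)).trace = _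
      rw [WW, HH, Finset.prod_range_succ, Finset.sum_range_succ, mul_assoc]
      rfl
    have hpt : ∀ x, G x + G (T j x) ≤ 2 * (WW X α j x *
        (NormedSpace.exp (HH X α M lam K j x)).trace) := by
      intro x
      have h1 := key hGT (HH X α M lam K j x) (mm K M j x) (HH_symm X α M lam j x)
        (mm_symm M j x) (α j x) lam (hα j x)
      have h2 := mul_le_mul_of_nonneg_left h1 (hW0 x)
      rw [hG x, hG (T j x), hWf, hHf, hodd j (by omega), hαf j j x le_rfl, hmf j x le_rfl]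
      rcases hX j x with h | h
      · rw [h, one_mul]
        rw [show (-1 : ℝ) * α j x = -α j x by ring, ← sub_eq_add_neg]
        linarith
      · rw [h, neg_neg, one_mul]
        rw [show (-1 : ℝ) * α j x = -α j x by ring, ← sub_eq_add_neg]
        linarith
    have hre : ∑ x, G (T j x) = ∑ x, G x :=
      Equiv.sum_comp (Function.Involutive.toPerm (T j) (hinv j)) G
    have hs := Finset.sum_le_sum fun x (_ : x ∈ Finset.univ) => hpt x
    rw [Finset.sum_add_distrib, hre, ← Finset.mul_sum] at hs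
    change ∑ x, G x ≤ _
    linarith

end mart

/-! ### Quadratic forms -/

lemma quad_lin {K : ℕ} (A : Matrix (Fin K) (Fin K) ℝ) (p q : Fin K → ℝ) :
    (Sum.elim p q) ⬝ᵥ (Matrix.fromBlocks 0 A A.transpose 0 *ᵥ (Sum.elim p q)) =
      2 * ∑ k, ∑ j, p k * q j * A k j := by
  rw [Matrix.fromBlocks_mulVec, sumElim_dotProduct_sumElim]
  simp only [Sum.elim_comp_inl, Sum.elim_comp_inr, Matrix.zero_mulVec, zero_add, add_zero]
  have h1 : p ⬝ᵥ (A *ᵥ q) = ∑ k, ∑ j, p k * q j * A k j := by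
    rw [dotProduct]
    refine Finset.sum_congr rfl fun k _ => ?_
    rw [Matrix.mulVec, dotProduct, Finset.mul_sum]
    exact Finset.sum_congr rfl fun j _ => by ring
  have h2 : q ⬝ᵥ (A.transpose *ᵥ p) = ∑ k, ∑ j, p k * q j * A k j := by
    rw [← h1, Matrix.mulVec_transpose, dotProduct_comm, Matrix.dotProduct_mulVec]
  rw [h1, h2]
  ring

lemma quad_sq {K : ℕ} (A : Matrix (Fin K) (Fin K) ℝ) (p q : Fin K → ℝ) :
    (Sum.elim p q) ⬝ᵥ ((Matrix.fromBlocks 0 A A.transpose 0 * Matrix.fromBlocks 0 A A.transpose 0)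
      *ᵥ (Sum.elim p q)) =
      ∑ k, (∑ j, q j * A k j) ^ 2 + ∑ j, (∑ k, p k * A k j) ^ 2 := by
  rw [← Matrix.mulVec_mulVec]
  have h0 : (Matrix.fromBlocks 0 A A.transpose 0).transpose =
      Matrix.fromBlocks 0 A A.transpose 0 := by
    rw [Matrix.fromBlocks_transpose, Matrix.transpose_zero, Matrix.transpose_transpose]
  have h1 : (Sum.elim p q) ⬝ᵥ (Matrix.fromBlocks 0 A A.transpose 0 *ᵥ
      (Matrix.fromBlocks 0 A A.transpose 0 *ᵥ (Sum.elim p q))) =
      (Matrix.fromBlocks 0 A A.transpose 0 *ᵥ (Sum.elim p q)) ⬝ᵥ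
      (Matrix.fromBlocks 0 A A.transpose 0 *ᵥ (Sum.elim p q)) := by
    rw [Matrix.dotProduct_mulVec, ← Matrix.mulVec_transpose, h0]
  rw [h1, Matrix.fromBlocks_mulVec, sumElim_dotProduct_sumElim]
  simp only [Sum.elim_comp_inl, Sum.elim_comp_inr, Matrix.zero_mulVec, zero_add, add_zero]
  congr 1
  · rw [dotProduct]
    refine Finset.sum_congr rfl fun k _ => ?_
    rw [Matrix.mulVec, dotProduct, sq]
    rw [Finset.sum_congr rfl fun j _ => mul_comm (A k j) (q j)]
  · rw [dotProduct]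
    refine Finset.sum_congr rfl fun j _ => ?_
    rw [Matrix.mulVec, dotProduct, sq]
    rw [Finset.sum_congr rfl fun k _ => mul_comm (A.transpose j k) (p k)]
    rfl

lemma comm3 (K V : ℕ) (F : ℕ → ℕ → ℕ → ℝ) :
    ∑ k ∈ range K, ∑ j ∈ range K, ∑ v ∈ range V, F k j v =
      ∑ v ∈ range V, ∑ j ∈ range K, ∑ k ∈ range K, F k j v := by
  have h1 : ∀ j, ∑ k ∈ range K, ∑ v ∈ range V, F k j v =
      ∑ v ∈ range V, ∑ k ∈ range K, F k j v := fun j => Finset.sum_comm
  rw [Finset.sum_comm, Finset.sum_congr rfl fun j _ => h1 j, Finset.sum_comm]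

lemma comm3' (K V : ℕ) (F : ℕ → ℕ → ℕ → ℝ) :
    ∑ k ∈ range K, ∑ j ∈ range K, ∑ v ∈ range V, F k j v =
      ∑ v ∈ range V, ∑ k ∈ range K, ∑ j ∈ range K, F k j v := by
  have h1 : ∀ k, ∑ j ∈ range K, ∑ v ∈ range V, F k j v =
      ∑ v ∈ range V, ∑ j ∈ range K, F k j v := fun k => Finset.sum_comm
  rw [Finset.sum_congr rfl fun k _ => h1 k, Finset.sum_comm]

/-- From the flattening norm to sums of squares. -/
lemma fl_sq {K V : ℕ} {G : ℕ → ℕ → ℕ → ℝ} {ν : ℝ} (hν : 0 < ν) (h : Fl K V G ν) (x : ℕ → ℝ) :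
    (∑ v ∈ range V, ∑ j ∈ range K, (∑ k ∈ range K, x k * G k j v) ^ 2 ≤
      ν ^ 2 * ∑ k ∈ range K, x k ^ 2) ∧
    (∑ v ∈ range V, ∑ k ∈ range K, (∑ j ∈ range K, x j * G k j v) ^ 2 ≤
      ν ^ 2 * ∑ j ∈ range K, x j ^ 2) := by
  have aux : ∀ s p : ℝ, 0 ≤ s → 0 ≤ p → s ≤ ν * (Real.sqrt p * Real.sqrt s) →
      s ≤ ν ^ 2 * p := by
    intro s p hs hp h1
    rcases eq_or_lt_of_le hs with h2 | h2
    · rw [← h2]; positivity
    · have h3 : Real.sqrt s * Real.sqrt s = s := Real.mul_self_sqrt hs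
      have h4 : 0 < Real.sqrt s := Real.sqrt_pos.2 h2
      have h5 : Real.sqrt s ≤ ν * Real.sqrt p := by
        have : Real.sqrt s * Real.sqrt s ≤ (ν * Real.sqrt p) * Real.sqrt s := by
          rw [h3]
          calc s ≤ ν * (Real.sqrt p * Real.sqrt s) := h1
            _ = _ := by ring
        exact le_of_mul_le_mul_right this h4
      have h6 : Real.sqrt p * Real.sqrt p = p := Real.mul_self_sqrt hp
      calc s = Real.sqrt s * Real.sqrt s := h3.symm
        _ ≤ (ν * Real.sqrt p) * (ν * Real.sqrt p) :=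
          mul_self_le_mul_self (Real.sqrt_nonneg _) h5
        _ = ν ^ 2 * (Real.sqrt p * Real.sqrt p) := by ring
        _ = ν ^ 2 * p := by rw [h6]
  constructor
  · refine aux _ _ (Finset.sum_nonneg fun _ _ => Finset.sum_nonneg fun _ _ => sq_nonneg _)
      (Finset.sum_nonneg fun _ _ => sq_nonneg _) ?_
    have h1 := (h x (fun j v => ∑ k ∈ range K, x k * G k j v)).1
    have h2 : ∑ k ∈ range K, ∑ j ∈ range K, ∑ v ∈ range V,
        x k * (∑ k' ∈ range K, x k' * G k' j v) * G k j v =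
        ∑ v ∈ range V, ∑ j ∈ range K, (∑ k ∈ range K, x k * G k j v) ^ 2 := by
      rw [comm3]
      refine Finset.sum_congr rfl fun v _ => Finset.sum_congr rfl fun j _ => ?_
      rw [sq, Finset.sum_mul]
      exact Finset.sum_congr rfl fun k _ => by ring
    rw [h2] at h1
    rw [Finset.sum_comm (s := range K) (t := range V)] at h1
    exact (le_abs_self _).trans h1
  · refine aux _ _ (Finset.sum_nonneg fun _ _ => Finset.sum_nonneg fun _ _ => sq_nonneg _)
      (Finset.sum_nonneg fun _ _ => sq_nonneg _) ?_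
    have h1 := (h x (fun k v => ∑ j ∈ range K, x j * G k j v)).2
    have h2 : ∑ k ∈ range K, ∑ j ∈ range K, ∑ v ∈ range V,
        x j * (∑ j' ∈ range K, x j' * G k j' v) * G k j v =
        ∑ v ∈ range V, ∑ k ∈ range K, (∑ j ∈ range K, x j * G k j v) ^ 2 := by
      rw [comm3']
      refine Finset.sum_congr rfl fun v _ => Finset.sum_congr rfl fun k _ => ?_
      rw [sq, Finset.sum_mul]
      exact Finset.sum_congr rfl fun k _ => by ring
    rw [h2] at h1
    rw [Finset.sum_comm (s := range K) (t := range V)] at h1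
    exact (le_abs_self _).trans h1

open Classical in
/-- A bad point has a large trace. -/
lemma bad_pt {Ω : Type} {V K : ℕ} (X α : ℕ → Ω → ℝ) (M : ℕ → Ω → ℕ → ℕ → ℝ) {ν a : ℝ}
    (hν : 0 < ν) (ha : 0 ≤ a) (x : Ω) (h1 : Fl K V (fun k j v => M v x k j) ν)
    (h2 : ¬ Op K K (fun k j => ∑ v ∈ range V, (X v x - α v x) * M v x k j) a) :
    Real.exp (a ^ 2 / (2 * ν ^ 2)) ≤
      (NormedSpace.exp (HH X α M (a / ν ^ 2) K V x)).trace := by
  unfold Op at h2
  push Not at h2
  obtain ⟨p, q, hpq⟩ := h2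
  set P : ℝ := ∑ i ∈ range K, p i ^ 2 with hP
  set Q : ℝ := ∑ i ∈ range K, q i ^ 2 with hQ
  have hP0 : 0 ≤ P := Finset.sum_nonneg fun _ _ => sq_nonneg _
  have hQ0 : 0 ≤ Q := Finset.sum_nonneg fun _ _ => sq_nonneg _
  set S : ℝ := ∑ i ∈ range K, ∑ j ∈ range K,
    p i * q j * ∑ v ∈ range V, (X v x - α v x) * M v x i j with hS
  have hPp : 0 < P := by
    refine lt_of_le_of_ne hP0 fun h0 => ?_
    have h3 : ∀ i ∈ range K, p i = 0 := by
      intro i hi
      have := (Finset.sum_eq_zero_iff_of_nonneg (fun i _ => sq_nonneg (p i))).1 h0.symm i hi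
      exact pow_eq_zero_iff (two_ne_zero) |>.1 this
    have h4 : S = 0 := Finset.sum_eq_zero fun i hi => Finset.sum_eq_zero fun j _ => by
      rw [h3 i hi]; ring
    rw [← h0, h4] at hpq
    simp at hpq
  have hQp : 0 < Q := by
    refine lt_of_le_of_ne hQ0 fun h0 => ?_
    have h3 : ∀ i ∈ range K, q i = 0 := by
      intro i hi
      have := (Finset.sum_eq_zero_iff_of_nonneg (fun i _ => sq_nonneg (q i))).1 h0.symm i hi
      exact pow_eq_zero_iff (two_ne_zero) |>.1 this
    have h4 : S = 0 := Finset.sum_eq_zero fun i _ => Finset.sum_eq_zero fun j hj => by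
      rw [h3 j hj]; ring
    rw [← h0, h4] at hpq
    simp at hpq
  -- normalisation and sign
  obtain ⟨σ, hσ, hσS⟩ : ∃ σ : ℝ, σ ^ 2 = 1 ∧ σ * S = |S| := by
    rcases abs_cases S with ⟨h, -⟩ | ⟨h, -⟩
    · exact ⟨1, by norm_num, by rw [h, one_mul]⟩
    · exact ⟨-1, by norm_num, by rw [h]; ring⟩
  set c : ℝ := 1 / Real.sqrt (2 * P) with hc
  set d : ℝ := σ / Real.sqrt (2 * Q) with hd
  have hc2 : c ^ 2 * P = 1 / 2 := by
    rw [hc, div_pow, Real.sq_sqrt (by positivity)]
    field_simp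
  have hd2 : d ^ 2 * Q = 1 / 2 := by
    rw [hd, div_pow, Real.sq_sqrt (by positivity), hσ]
    field_simp
  have hcd : 2 * (c * d * S) * (Real.sqrt P * Real.sqrt Q) = |S| := by
    rw [hc, hd, Real.sqrt_mul (by norm_num), Real.sqrt_mul (by norm_num), ← hσS]
    have e1 : Real.sqrt P ≠ 0 := (Real.sqrt_pos.2 hPp).ne'
    have e2 : Real.sqrt Q ≠ 0 := (Real.sqrt_pos.2 hQp).ne'
    have e3 : Real.sqrt 2 ≠ 0 := (Real.sqrt_pos.2 (by norm_num)).ne'
    have e4 : Real.sqrt 2 ^ 2 = 2 := Real.sq_sqrt (by norm_num)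
    field_simp
    rw [e4]
    try ring
  let u : Fin K ⊕ Fin K → ℝ := Sum.elim (fun i : Fin K => c * p i) (fun i : Fin K => d * q i)
  have hu : ∑ i, u i ^ 2 = 1 := by
    rw [Fintype.sum_sum_type]
    have h3 : ∑ i : Fin K, u (Sum.inl i) ^ 2 = c ^ 2 * P := by
      rw [hP, ← Fin.sum_univ_eq_sum_range (fun i => p i ^ 2), Finset.mul_sum]
      exact Finset.sum_congr rfl fun i _ => by
        change (c * p i) ^ 2 = _
        ring
    have h4 : ∑ i : Fin K, u (Sum.inr i) ^ 2 = d ^ 2 * Q := by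
      rw [hQ, ← Fin.sum_univ_eq_sum_range (fun i => q i ^ 2), Finset.mul_sum]
      exact Finset.sum_congr rfl fun i _ => by
        change (d * q i) ^ 2 = _
        ring
    rw [h3, h4, hc2, hd2]
    norm_num
  have h3 := tr_exp (HH X α M (a / ν ^ 2) K V x) (HH_symm X α M _ V x) u hu
  refine le_trans (Real.exp_le_exp.2 ?_) h3
  -- the quadratic form
  have h4 : u ⬝ᵥ (HH X α M (a / ν ^ 2) K V x *ᵥ u) =
      (a / ν ^ 2) * ∑ v ∈ range V, (X v x - α v x) * (u ⬝ᵥ (mm K M v x *ᵥ u)) -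
      ((a / ν ^ 2) ^ 2 / 2) * ∑ v ∈ range V, (u ⬝ᵥ ((mm K M v x * mm K M v x) *ᵥ u)) := by
    rw [HH, Matrix.sum_mulVec, dotProduct_sum, Finset.mul_sum, Finset.mul_sum,
      ← Finset.sum_sub_distrib]
    refine Finset.sum_congr rfl fun v _ => ?_
    rw [Matrix.sub_mulVec, dotProduct_sub, Matrix.smul_mulVec, Matrix.smul_mulVec,
      dotProduct_smul, dotProduct_smul, smul_eq_mul, smul_eq_mul]
    ring
  have h5 : ∑ v ∈ range V, (X v x - α v x) * (u ⬝ᵥ (mm K M v x *ᵥ u)) = 2 * (c * d * S) := by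
    have h6 : ∀ v, u ⬝ᵥ (mm K M v x *ᵥ u) =
        2 * (c * d * ∑ i ∈ range K, ∑ j ∈ range K, p i * q j * M v x i j) := by
      intro v
      have h7 := quad_lin (AM K M v x) (fun i : Fin K => c * p i) (fun i : Fin K => d * q i)
      refine h7.trans ?_
      congr 1
      rw [← Fin.sum_univ_eq_sum_range (fun i => ∑ j ∈ range K, p i * q j * M v x i j),
        Finset.mul_sum]
      refine Finset.sum_congr rfl fun i _ => ?_
      rw [← Fin.sum_univ_eq_sum_range (fun j => p i * q j * M v x i j), Finset.mul_sum]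
      refine Finset.sum_congr rfl fun j _ => ?_
      rw [AM, Matrix.of_apply]
      ring
    rw [Finset.sum_congr rfl fun v _ => by rw [h6 v], hS]
    simp only [Finset.mul_sum]
    rw [Finset.sum_comm]
    refine Finset.sum_congr rfl fun i _ => ?_
    rw [Finset.sum_comm]
    refine Finset.sum_congr rfl fun j _ => Finset.sum_congr rfl fun v _ => ?_
    ring
  have h6 : ∑ v ∈ range V, (u ⬝ᵥ ((mm K M v x * mm K M v x) *ᵥ u)) ≤ ν ^ 2 := by
    have h7 : ∀ v, u ⬝ᵥ ((mm K M v x * mm K M v x) *ᵥ u) =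
        d ^ 2 * (∑ i ∈ range K, (∑ j ∈ range K, q j * M v x i j) ^ 2) +
        c ^ 2 * (∑ j ∈ range K, (∑ i ∈ range K, p i * M v x i j) ^ 2) := by
      intro v
      have h8 := quad_sq (AM K M v x) (fun i : Fin K => c * p i) (fun i : Fin K => d * q i)
      refine h8.trans ?_
      congr 1
      · rw [← Fin.sum_univ_eq_sum_range (fun i => (∑ j ∈ range K, q j * M v x i j) ^ 2),
          Finset.mul_sum]
        refine Finset.sum_congr rfl fun i _ => ?_
        rw [← Fin.sum_univ_eq_sum_range (fun j => q j * M v x i j), ← mul_pow, Finset.mul_sum]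
        congr 1
        refine Finset.sum_congr rfl fun j _ => ?_
        rw [AM, Matrix.of_apply]
        ring
      · rw [← Fin.sum_univ_eq_sum_range (fun j => (∑ i ∈ range K, p i * M v x i j) ^ 2),
          Finset.mul_sum]
        refine Finset.sum_congr rfl fun j _ => ?_
        rw [← Fin.sum_univ_eq_sum_range (fun i => p i * M v x i j), ← mul_pow, Finset.mul_sum]
        congr 1
        refine Finset.sum_congr rfl fun i _ => ?_
        rw [AM, Matrix.of_apply]
        ring
    rw [Finset.sum_congr rfl fun v _ => h7 v, Finset.sum_add_distrib, ← Finset.mul_sum,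
      ← Finset.mul_sum]
    have h8 := (fl_sq hν h1 q).2
    have h9 := (fl_sq hν h1 p).1
    calc _ ≤ d ^ 2 * (ν ^ 2 * Q) + c ^ 2 * (ν ^ 2 * P) :=
          add_le_add (mul_le_mul_of_nonneg_left h8 (sq_nonneg _))
            (mul_le_mul_of_nonneg_left h9 (sq_nonneg _))
      _ = ν ^ 2 * (d ^ 2 * Q + c ^ 2 * P) := by ring
      _ = ν ^ 2 := by rw [hc2, hd2]; ring
  have h7 : a ≤ 2 * (c * d * S) := by
    have h8 : 0 < Real.sqrt P * Real.sqrt Q :=
      mul_pos (Real.sqrt_pos.2 hPp) (Real.sqrt_pos.2 hQp)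
    have h9 : a * (Real.sqrt P * Real.sqrt Q) ≤
        2 * (c * d * S) * (Real.sqrt P * Real.sqrt Q) := by
      rw [hcd]
      exact hpq.le
    exact le_of_mul_le_mul_right h9 h8
  rw [h4, h5]
  have h8 : 0 ≤ a / ν ^ 2 := by positivity
  have h9 := mul_le_mul_of_nonneg_left h7 h8
  have h10 := mul_le_mul_of_nonneg_left h6 (by positivity : 0 ≤ (a / ν ^ 2) ^ 2 / 2)
  have h11 : a ^ 2 / (2 * ν ^ 2) = a / ν ^ 2 * a - (a / ν ^ 2) ^ 2 / 2 * ν ^ 2 := by
    field_simp
    ring
  rw [h11]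
  linarith

end Frd

open Frd in
/-- **Matrix Freedman inequality for biased signs.** -/
theorem t_FRD (hGT : S_GT) : S_FRD := by
  classical
  intro Ω _ _ V K T X α M ν a hinv hX hodd hXf hαf hMf hα hν ha
  have hN : (0 : ℝ) < Fintype.card Ω := by exact_mod_cast Fintype.card_pos
  have hc := claim T X α M (a / ν ^ 2) (V := V) (K := K) hGT hinv hX hodd hXf hαf hMf hα V le_rfl
  have hW0 : ∀ x, 0 ≤ WW X α V x := by
    intro x
    refine Finset.prod_nonneg fun v _ => ?_
    have h1 := abs_le.1 (hα v x)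
    rcases hX v x with h | h
    · rw [h]; linarith [h1.1]
    · rw [h]; linarith [h1.2]
  rw [Real.exp_neg, ← div_eq_mul_inv, le_div_iff₀ (Real.exp_pos _), E, div_mul_eq_mul_div,
    div_le_iff₀ hN, Finset.sum_mul]
  calc _ ≤ ∑ x, WW X α V x * (NormedSpace.exp (HH X α M (a / ν ^ 2) K V x)).trace := by
        refine Finset.sum_le_sum fun x _ => ?_
        split_ifs with h
        · exact mul_le_mul_of_nonneg_left (bad_pt X α M hν ha x h.1 h.2) (hW0 x)
        · rw [zero_mul]
          exact mul_nonneg (hW0 x) (tr_exp_nonneg _ (HH_symm X α M _ V x))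
    _ ≤ 2 * (K : ℝ) * Fintype.card Ω := hc
    _ ≤ 4 * ((K : ℝ) + 1) * Fintype.card Ω := by
        refine mul_le_mul_of_nonneg_right ?_ hN.le
        have : (0 : ℝ) ≤ K := Nat.cast_nonneg K
        linarith

end Pool.Agent.NH99.WZ
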