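import Mathlib
import Pool.Agent.NH99.WZ.StmC

set_option autoImplicit false

/-!
# Golden-Thompson inequality for real symmetric matrices, from the power trace inequality
-/

namespace Pool.Agent.NH99.WZ.Gt

open Filter Topology NormedSpace

section Gen

variable {𝔸 : Type*} [NormedRing 𝔸] [NormedAlgebra ℝ 𝔸] [CompleteSpace 𝔸] [NormOneClass 𝔸]

omit [CompleteSpace 𝔸] in
theorem norm_exp_le (x : 𝔸) : ‖exp x‖ ≤ Real.exp ‖x‖ := by
  have h1 : exp x = ∑' n : ℕ, ((n.factorial : ℝ)⁻¹) • x ^ n := by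
    rw [exp_eq_tsum ℝ]
  rw [h1]
  have h2 : Summable fun n : ℕ => ‖((n.factorial : ℝ)⁻¹) • x ^ n‖ := norm_expSeries_summable' x
  refine (norm_tsum_le_tsum_norm h2).trans ?_
  have h3 : Real.exp ‖x‖ = ∑' n : ℕ, ((n.factorial : ℝ)⁻¹) • ‖x‖ ^ n := by
    rw [Real.exp_eq_exp_ℝ, exp_eq_tsum ℝ]
  rw [h3]
  have h4 : Summable fun n : ℕ => ((n.factorial : ℝ)⁻¹) • ‖x‖ ^ n :=
    expSeries_summable' (𝕂 := ℝ) ‖x‖
  refine h2.tsum_le_tsum (fun n => ?_) h4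
  rw [norm_smul, smul_eq_mul]
  have h5 : ‖((n.factorial : ℝ)⁻¹)‖ = ((n.factorial : ℝ)⁻¹) := by
    rw [Real.norm_eq_abs, abs_of_nonneg (by positivity)]
  rw [h5]
  exact mul_le_mul_of_nonneg_left (norm_pow_le x n) (by positivity)

omit [NormedAlgebra ℝ 𝔸] [CompleteSpace 𝔸] in
theorem pow_sub (U V : 𝔸) (M : ℝ) (hM : 1 ≤ M) (hU : ‖U‖ ≤ M) (hV : ‖V‖ ≤ M) (n : ℕ) :
    ‖U ^ n - V ^ n‖ ≤ n * M ^ n * ‖U - V‖ := by
  induction n with
  | zero => simp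
  | succ n ih =>
    have h1 : U ^ (n + 1) - V ^ (n + 1) = U ^ n * (U - V) + (U ^ n - V ^ n) * V := by
      rw [pow_succ, pow_succ]; noncomm_ring
    rw [h1]
    have h2 : ‖U ^ n‖ ≤ M ^ n := (norm_pow_le U n).trans (pow_le_pow_left₀ (norm_nonneg _) hU n)
    have h3 : ‖U ^ n * (U - V)‖ ≤ M ^ n * ‖U - V‖ :=
      (norm_mul_le _ _).trans (mul_le_mul_of_nonneg_right h2 (norm_nonneg _))
    have h4 : ‖(U ^ n - V ^ n) * V‖ ≤ (n * M ^ n * ‖U - V‖) * M :=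
      (norm_mul_le _ _).trans (mul_le_mul ih hV (norm_nonneg _) (by positivity))
    have h5 : M ^ n * ‖U - V‖ ≤ M ^ (n + 1) * ‖U - V‖ :=
      mul_le_mul_of_nonneg_right (pow_le_pow_right₀ hM (Nat.le_succ n)) (norm_nonneg _)
    calc ‖U ^ n * (U - V) + (U ^ n - V ^ n) * V‖ ≤ ‖U ^ n * (U - V)‖ + ‖(U ^ n - V ^ n) * V‖ :=
          norm_add_le _ _
      _ ≤ M ^ (n + 1) * ‖U - V‖ + (n * M ^ n * ‖U - V‖) * M := add_le_add (h3.trans h5) h4
      _ = ((n + 1 : ℕ) : ℝ) * M ^ (n + 1) * ‖U - V‖ := by push_cast; ring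

/-- Lie's product formula -/
theorem lie (A B : 𝔸) : Tendsto (fun k : ℕ =>
    (exp (((2 ^ k : ℕ) : ℝ)⁻¹ • A) * exp (((2 ^ k : ℕ) : ℝ)⁻¹ • B)) ^ (2 ^ k)) atTop
    (𝓝 (exp (A + B))) := by
  let _ : NormedAlgebra ℚ 𝔸 := NormedAlgebra.restrictScalars ℚ ℝ 𝔸
  -- derivatives
  have hA : HasDerivAt (fun t : ℝ => exp (t • A)) A 0 := by
    have := hasDerivAt_exp_smul_const (𝕂 := ℝ) A 0
    simpa using this
  have hB : HasDerivAt (fun t : ℝ => exp (t • B)) B 0 := by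
    have := hasDerivAt_exp_smul_const (𝕂 := ℝ) B 0
    simpa using this
  have hC : HasDerivAt (fun t : ℝ => exp (t • (A + B))) (A + B) 0 := by
    have := hasDerivAt_exp_smul_const (𝕂 := ℝ) (A + B) 0
    simpa using this
  have hAB : HasDerivAt (fun t : ℝ => exp (t • A) * exp (t • B)) (A + B) 0 := by
    have := hA.fun_mul hB
    simpa using this
  have hD : HasDerivAt (fun t : ℝ => exp (t • A) * exp (t • B) - exp (t • (A + B))) 0 0 := by
    have := hAB.fun_sub hC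
    rwa [sub_self] at this
  -- the sequence
  have hN : Tendsto (fun k : ℕ => ((2 ^ k : ℕ) : ℝ)⁻¹) atTop (𝓝 0) := by
    have h1 : Tendsto (fun k : ℕ => ((1 : ℝ) / 2) ^ k) atTop (𝓝 0) :=
      tendsto_pow_atTop_nhds_zero_of_lt_one (by norm_num) (by norm_num)
    refine h1.congr fun k => ?_
    push_cast
    rw [one_div, inv_pow]
  rw [hasDerivAt_iff_isLittleO] at hD
  simp only [zero_smul, exp_zero, mul_one, sub_self, sub_zero, smul_zero] at hD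
  have hE := hD.comp_tendsto hN
  rw [tendsto_iff_norm_sub_tendsto_zero]
  -- bound
  set K : ℝ := Real.exp (‖A‖ + ‖B‖) with hK
  have hK0 : 0 < K := Real.exp_pos _
  have hbd : ∀ k : ℕ, ‖(exp (((2 ^ k : ℕ) : ℝ)⁻¹ • A) * exp (((2 ^ k : ℕ) : ℝ)⁻¹ • B)) ^ (2 ^ k) -
      exp (A + B)‖ ≤ K * (((2 ^ k : ℕ) : ℝ) * ‖exp (((2 ^ k : ℕ) : ℝ)⁻¹ • A) *
        exp (((2 ^ k : ℕ) : ℝ)⁻¹ • B) - exp (((2 ^ k : ℕ) : ℝ)⁻¹ • (A + B))‖) := by
    intro k
    set N : ℕ := 2 ^ k with hNk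
    have hN0 : (0 : ℝ) < (N : ℝ) := by rw [hNk]; positivity
    set s : ℝ := ((N : ℝ))⁻¹ with hs
    have hs0 : 0 < s := inv_pos.mpr hN0
    have h1 : exp (A + B) = (exp (s • (A + B))) ^ N := by
      rw [← exp_nsmul]
      congr 1
      rw [← Nat.cast_smul_eq_nsmul ℝ, smul_smul, hs, mul_inv_cancel₀ hN0.ne', one_smul]
    rw [h1]
    set M : ℝ := Real.exp (s * (‖A‖ + ‖B‖)) with hM
    have hM1 : 1 ≤ M := Real.one_le_exp (by positivity)
    have hns : ∀ X : 𝔸, ‖s • X‖ = s * ‖X‖ := fun X => by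
      rw [norm_smul, Real.norm_eq_abs, abs_of_pos hs0]
    have hU : ‖exp (s • A) * exp (s • B)‖ ≤ M := by
      refine (norm_mul_le _ _).trans ?_
      have e1 := norm_exp_le (s • A)
      have e2 := norm_exp_le (s • B)
      rw [hns] at e1 e2
      refine (mul_le_mul e1 e2 (norm_nonneg _) (Real.exp_pos _).le).trans (le_of_eq ?_)
      rw [hM, ← Real.exp_add, mul_add]
    have hV : ‖exp (s • (A + B))‖ ≤ M := by
      refine (norm_exp_le _).trans ?_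
      rw [hns, hM]
      exact Real.exp_le_exp.mpr (mul_le_mul_of_nonneg_left (norm_add_le _ _) hs0.le)
    refine (pow_sub _ _ M hM1 hU hV N).trans (le_of_eq ?_)
    have h2 : M ^ N = K := by
      rw [hM, hK, ← Real.exp_nat_mul]
      congr 1
      rw [← mul_assoc, hs, mul_inv_cancel₀ hN0.ne', one_mul]
    rw [h2]; ring
  refine squeeze_zero (fun k => norm_nonneg _) hbd ?_
  have h0 : Tendsto (fun k : ℕ => (((2 ^ k : ℕ) : ℝ) * ‖exp (((2 ^ k : ℕ) : ℝ)⁻¹ • A) *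
        exp (((2 ^ k : ℕ) : ℝ)⁻¹ • B) - exp (((2 ^ k : ℕ) : ℝ)⁻¹ • (A + B))‖)) atTop (𝓝 0) := by
    have hF := hE.norm_norm.tendsto_div_nhds_zero
    refine hF.congr fun k => ?_
    have hN0 : (0 : ℝ) < ((2 ^ k : ℕ) : ℝ) := by positivity
    simp only [Function.comp, norm_inv, Real.norm_eq_abs]
    rw [abs_of_pos hN0, div_inv_eq_mul, mul_comm]
  simpa using h0.const_mul K

end Gen

open scoped Matrix.Norms.Operator in
/-- the product formula for matrices -/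
theorem lieM {ι : Type} [Fintype ι] [DecidableEq ι] [Nonempty ι] (A B : Matrix ι ι ℝ) :
    Tendsto (fun k : ℕ =>
    (exp (((2 ^ k : ℕ) : ℝ)⁻¹ • A) * exp (((2 ^ k : ℕ) : ℝ)⁻¹ • B)) ^ (2 ^ k)) atTop
    (𝓝 (exp (A + B))) := lie A B

theorem gt {ι : Type} [Fintype ι] [DecidableEq ι] [Nonempty ι] (A B : Matrix ι ι ℝ)
    (hA : A.transpose = A) (hB : B.transpose = B)
    (h : ∀ (P Q : Matrix ι ι ℝ) (k : ℕ), P.transpose = P → Q.transpose = Q →
      ((P * Q) ^ (2 ^ k)).trace ≤ (P ^ (2 ^ k) * Q ^ (2 ^ k)).trace) :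
    (exp (A + B)).trace ≤ (exp A * exp B).trace := by
  have hc : Continuous fun X : Matrix ι ι ℝ => X.trace := continuous_id.matrix_trace
  have h1 := (hc.tendsto _).comp (lieM A B)
  refine le_of_tendsto' h1 fun k => ?_
  have hN0 : (0 : ℝ) < ((2 ^ k : ℕ) : ℝ) := by positivity
  have hp : ∀ X : Matrix ι ι ℝ, (exp (((2 ^ k : ℕ) : ℝ)⁻¹ • X)) ^ (2 ^ k) = exp X := fun X => by
    rw [← Matrix.exp_nsmul]
    congr 1
    rw [← Nat.cast_smul_eq_nsmul ℝ, smul_smul, mul_inv_cancel₀ hN0.ne', one_smul]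
  have ht : ∀ X : Matrix ι ι ℝ, X.transpose = X →
      (exp (((2 ^ k : ℕ) : ℝ)⁻¹ • X)).transpose = exp (((2 ^ k : ℕ) : ℝ)⁻¹ • X) := fun X hX => by
    rw [← Matrix.exp_transpose, Matrix.transpose_smul, hX]
  have h2 := h (exp (((2 ^ k : ℕ) : ℝ)⁻¹ • A)) (exp (((2 ^ k : ℕ) : ℝ)⁻¹ • B)) k (ht A hA) (ht B hB)
  rw [hp, hp] at h2
  exact h2

end Pool.Agent.NH99.WZ.Gt

namespace Pool.Agent.NH99.WZ

theorem t_GT (h : S_TR) : S_GT := by
  intro ι _ _ A B hA hB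
  rcases isEmpty_or_nonempty ι with he | hne
  · simp [Matrix.trace]
  · exact Gt.gt A B hA hB fun P Q k hP hQ => h ι P Q k hP hQ

end Pool.Agent.NH99.WZ
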