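import Pool.Agent.NH99.WZ.StmC

/-!
# WZ-08: the trace inequality `tr ((P Q) ^ (2 ^ k)) ≤ tr (P ^ (2 ^ k) Q ^ (2 ^ k))` (helper45)
-/

set_option autoImplicit false

namespace Pool.Agent.NH99.WZ

namespace Tr

open Matrix

variable {ι : Type} [Fintype ι] [DecidableEq ι]

theorem pow_ab (A B : Matrix ι ι ℝ) (n : ℕ) : (A * B) ^ (n + 1) = A * (B * A) ^ n * B := by
  induction n with
  | zero => simp
  | succ n ih =>
    rw [pow_succ, ih, pow_succ]
    simp only [Matrix.mul_assoc]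

theorem trace_ab (A B : Matrix ι ι ℝ) (N : ℕ) : ((A * B) ^ N).trace = ((B * A) ^ N).trace := by
  cases N with
  | zero => rw [pow_zero, pow_zero]
  | succ n =>
    rw [pow_ab, Matrix.trace_mul_comm, ← Matrix.mul_assoc, ← pow_succ']

theorem trace_sq_nonneg (A : Matrix ι ι ℝ) : 0 ≤ (A * Aᵀ).trace := by
  rw [Matrix.trace]
  refine Finset.sum_nonneg fun i _ => ?_
  rw [Matrix.diag_apply, Matrix.mul_apply]
  refine Finset.sum_nonneg fun j _ => ?_
  rw [Matrix.transpose_apply]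
  exact mul_self_nonneg _

/-- Cauchy's inequality -/
theorem cs (A B : Matrix ι ι ℝ) (hA : Aᵀ = A) (hB : Bᵀ = B) :
    2 * (A * B).trace ≤ (A * A).trace + (B * B).trace := by
  have h := trace_sq_nonneg (A - B)
  rw [Matrix.transpose_sub, hA, hB, Matrix.sub_mul, Matrix.mul_sub, Matrix.mul_sub,
    Matrix.trace_sub, Matrix.trace_sub, Matrix.trace_sub, Matrix.trace_mul_comm B A] at h
  linarith

theorem e_zero (Z : Matrix ι ι ℝ) : |(Z * Z).trace| ≤ (Z * Zᵀ).trace := by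
  have h1 := trace_sq_nonneg (Z - Zᵀ)
  have h2 := trace_sq_nonneg (Z + Zᵀ)
  have e1 : (Zᵀ * Zᵀ).trace = (Z * Z).trace := by
    rw [← Matrix.transpose_mul, Matrix.trace_transpose]
  have e2 : (Zᵀ * Z).trace = (Z * Zᵀ).trace := Matrix.trace_mul_comm _ _
  rw [Matrix.transpose_sub, Matrix.transpose_transpose, Matrix.sub_mul, Matrix.mul_sub,
    Matrix.mul_sub, Matrix.trace_sub, Matrix.trace_sub, Matrix.trace_sub, e1, e2] at h1
  rw [Matrix.transpose_add, Matrix.transpose_transpose, Matrix.add_mul, Matrix.mul_add,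
    Matrix.mul_add, Matrix.trace_add, Matrix.trace_add, Matrix.trace_add, e1, e2] at h2
  rw [abs_le]
  constructor <;> linarith

theorem main (k : ℕ) :
    (∀ Z : Matrix ι ι ℝ, |(Z ^ (2 ^ (k + 1))).trace| ≤ ((Z * Zᵀ) ^ (2 ^ k)).trace) ∧
    ∀ P Q : Matrix ι ι ℝ, Pᵀ = P → Qᵀ = Q →
      ((P * Q) ^ (2 ^ k)).trace ≤ (P ^ (2 ^ k) * Q ^ (2 ^ k)).trace := by
  induction k with
  | zero =>
    refine ⟨fun Z => ?_, fun P Q _ _ => ?_⟩
    · have h := e_zero Z
      rw [← pow_two] at h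
      simpa using h
    · simp
  | succ k ih =>
    obtain ⟨hE, hF⟩ := ih
    refine ⟨fun Z => ?_, fun P Q hP hQ => ?_⟩
    · have h1 : Z ^ (2 ^ (k + 1 + 1)) = (Z * Z) ^ (2 ^ (k + 1)) := by
        rw [← pow_two, ← pow_mul]
        congr 1
        ring
      rw [h1]
      refine (hE (Z * Z)).trans ?_
      have h2 : Z * Z * (Z * Z)ᵀ = (Z * Z * Zᵀ) * Zᵀ := by
        rw [Matrix.transpose_mul]
        simp only [Matrix.mul_assoc]
      have h3 : Zᵀ * (Z * Z * Zᵀ) = (Zᵀ * Z) * (Z * Zᵀ) := by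
        simp only [Matrix.mul_assoc]
      rw [h2, trace_ab, h3]
      have s1 : (Zᵀ * Z)ᵀ = Zᵀ * Z := by
        rw [Matrix.transpose_mul, Matrix.transpose_transpose]
      have s2 : (Z * Zᵀ)ᵀ = Z * Zᵀ := by
        rw [Matrix.transpose_mul, Matrix.transpose_transpose]
      refine (hF _ _ s1 s2).trans ?_
      have s3 : ((Zᵀ * Z) ^ 2 ^ k)ᵀ = (Zᵀ * Z) ^ 2 ^ k := by
        rw [Matrix.transpose_pow, s1]
      have s4 : ((Z * Zᵀ) ^ 2 ^ k)ᵀ = (Z * Zᵀ) ^ 2 ^ k := by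
        rw [Matrix.transpose_pow, s2]
      have h4 := cs _ _ s3 s4
      have h5 : ∀ A : Matrix ι ι ℝ, A ^ 2 ^ k * A ^ 2 ^ k = A ^ 2 ^ (k + 1) := by
        intro A
        rw [← pow_add]
        congr 1
        ring
      rw [h5, h5, trace_ab Zᵀ Z] at h4
      linarith
    · have h1 : (P * Q) ^ (2 ^ (k + 1)) = (P * Q) ^ (2 ^ (k + 1)) := rfl
      refine (le_abs_self _).trans ((hE (P * Q)).trans ?_)
      have h2 : P * Q * (P * Q)ᵀ = (P * Q * Q) * P := by
        rw [Matrix.transpose_mul, hP, hQ]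
        simp only [Matrix.mul_assoc]
      have h3 : P * (P * Q * Q) = (P * P) * (Q * Q) := by
        simp only [Matrix.mul_assoc]
      rw [h2, trace_ab, h3]
      have s1 : (P * P)ᵀ = P * P := by rw [Matrix.transpose_mul, hP]
      have s2 : (Q * Q)ᵀ = Q * Q := by rw [Matrix.transpose_mul, hQ]
      have h4 := hF _ _ s1 s2
      have h5 : ∀ A : Matrix ι ι ℝ, (A * A) ^ 2 ^ k = A ^ 2 ^ (k + 1) := by
        intro A
        rw [← pow_two, ← pow_mul]
        congr 1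
        ring
      rw [h5, h5] at h4
      exact h4

end Tr

theorem t_TR : S_TR := by
  intro ι _ _ P Q k hP hQ
  exact (Tr.main k).2 P Q hP hQ

end Pool.Agent.NH99.WZ
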