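import Pool.Agent.NH99.WZ.StmC

set_option autoImplicit false

/-!
# Project WZ, job WZ-16: masses decrease
-/

namespace Pool.Agent.NH99.WZ

open Finset
open Pool.Agent.H397R2.SD (E)

namespace Mass

variable {Ω : Type} [Fintype Ω]

theorem E_invol (τ : Ω → Ω) (hτ : ∀ x, τ (τ x) = x) (g : Ω → ℝ) :
    E (fun x => g (τ x)) = E g := by
  unfold E
  congr 1
  exact Fintype.sum_bijective τ (Function.Involutive.bijective hτ) _ _ (fun x => rfl)

theorem E_le (g h : Ω → ℝ) (H : ∀ x, g x ≤ h x) : E g ≤ E h := by
  unfold E
  exact div_le_div_of_nonneg_right (Finset.sum_le_sum fun x _ => H x) (Nat.cast_nonneg _)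

theorem E_half (g h : Ω → ℝ) : E (fun x => (g x + h x) / 2) = (E g + E h) / 2 := by
  unfold E
  rw [← add_div, ← Finset.sum_add_distrib, ← Finset.sum_div]
  ring

end Mass

open Mass

open Classical in
theorem t_MASS (hP : S_PRED) : S_MASS := by
  intro Ω _ _ n m T X f ρ β δ hy hpos
  have key : ∀ (N : ℕ) (s s' : Ed) (g : Ω → ℝ), ∑ i, (s i - s' i) = N → (∀ i, s i ≤ n + 1) →
      (∀ i, s' i ≤ s i) → (∀ x, 0 ≤ g x) → Pre T s' g →
      E (fun x => if Good m β δ (Xx X x) (yx ρ f x) (fun i => s i - 1)
        then DD (yx ρ f x) s * g x else 0) ≤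
      E (fun x => if Good m β δ (Xx X x) (yx ρ f x) (fun i => s' i - 1)
        then DD (yx ρ f x) s' * g x else 0) := by
    intro N
    induction N with
    | zero =>
      intro s s' g hN _ hs' _ _
      have : s = s' := by
        funext i
        have h1 := (Finset.sum_eq_zero_iff.1 hN) i (Finset.mem_univ i)
        have h2 := hs' i
        omega
      rw [this]
    | succ N ih =>
      intro s s' g hN hs hs' hg hpre
      obtain ⟨i, hi⟩ : ∃ i, s' i < s i := by
        by_contra hcon
        push Not at hcon
        have : ∑ i, (s i - s' i) = 0 := Finset.sum_eq_zero fun i _ => by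
          have := hcon i
          omega
        omega
      set s1 : Ed := Function.update s i (s i - 1) with hs1
      have hs1i : s1 i = s i - 1 := by rw [hs1, Function.update_self]
      have hs1j : ∀ j, j ≠ i → s1 j = s j := fun j hj => by
        rw [hs1, Function.update_of_ne hj]
      have hs1le : ∀ j, s1 j ≤ s j := by
        intro j
        by_cases hj : j = i
        · subst hj
          omega
        · rw [hs1j j hj]
      obtain ⟨-, hM, -, -, hG⟩ := hP Ω n T X f ρ hy
      have hGs := (hG m β δ (fun j => s j - 1) (fun j => by have := hs j; omega)).2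
      have hinv : ∀ x, T i (s i - 1) (T i (s i - 1) x) = x := hy.inv i _
      have e1 : E (fun x => if Good m β δ (Xx X x) (yx ρ f x) (fun j => s j - 1)
          then DD (yx ρ f x) s * g x else 0) =
          E (fun x => if Good m β δ (Xx X x) (yx ρ f x) (fun j => s j - 1)
            then DD (yx ρ f x) s1 * g x else 0) := by
        have h2 := E_invol (T i (s i - 1)) hinv
          (fun x => if Good m β δ (Xx X x) (yx ρ f x) (fun j => s j - 1)
            then DD (yx ρ f x) s * g x else 0)
        have h3 := E_half (fun x => if Good m β δ (Xx X x) (yx ρ f x) (fun j => s j - 1)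
            then DD (yx ρ f x) s * g x else 0)
          (fun x => (fun x => if Good m β δ (Xx X x) (yx ρ f x) (fun j => s j - 1)
            then DD (yx ρ f x) s * g x else 0) (T i (s i - 1) x))
        have h4 : (E (fun x => if Good m β δ (Xx X x) (yx ρ f x) (fun j => s j - 1)
            then DD (yx ρ f x) s * g x else 0) +
            E (fun x => (fun x => if Good m β δ (Xx X x) (yx ρ f x) (fun j => s j - 1)
            then DD (yx ρ f x) s * g x else 0) (T i (s i - 1) x))) / 2 =
            E (fun x => if Good m β δ (Xx X x) (yx ρ f x) (fun j => s j - 1)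
            then DD (yx ρ f x) s * g x else 0) := by
          rw [h2]; ring
        rw [← h4, ← h3]
        congr 1
        funext x
        have g1 : Good m β δ (Xx X (T i (s i - 1) x)) (yx ρ f (T i (s i - 1) x))
            (fun j => s j - 1) = Good m β δ (Xx X x) (yx ρ f x) (fun j => s j - 1) :=
          hGs i (s i - 1) (by simp) x
        have g2 : g (T i (s i - 1) x) = g x := hpre i (s i - 1) (by omega) x
        have g3 := hM s i x (by omega)
        simp only [g1, g2]
        split_ifs
        · rw [← hs1] at g3
          have : DD (yx ρ f x) s1 = (DD (yx ρ f x) s + DD (yx ρ f (T i (s i - 1) x)) s) / 2 := by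
            rw [g3]; ring
          rw [this]
          ring
        · ring
      rw [e1]
      have hsub : ∀ x, Good m β δ (Xx X x) (yx ρ f x) (fun j => s j - 1) →
          Good m β δ (Xx X x) (yx ρ f x) (fun j => s1 j - 1) := by
        intro x hx r hr
        exact hx r fun j => (hr j).trans (Nat.sub_le_sub_right (hs1le j) 1)
      have e2 : E (fun x => if Good m β δ (Xx X x) (yx ρ f x) (fun j => s j - 1)
            then DD (yx ρ f x) s1 * g x else 0) ≤
          E (fun x => if Good m β δ (Xx X x) (yx ρ f x) (fun j => s1 j - 1)
            then DD (yx ρ f x) s1 * g x else 0) := by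
        refine E_le _ _ fun x => ?_
        by_cases h1 : Good m β δ (Xx X x) (yx ρ f x) (fun j => s j - 1)
        · rw [if_pos h1, if_pos (hsub x h1)]
        · rw [if_neg h1]
          split_ifs with h2
          · refine mul_nonneg (hpos x _ s1 (fun j => ?_) h2 (fun j => ?_)) (hg x)
            · have := hs j
              have := hs1le j
              omega
            · omega
          · exact le_rfl
      refine e2.trans (ih s1 s' g ?_ (fun j => (hs1le j).trans (hs j)) (fun j => ?_) hg hpre)
      · have h5 : ∑ j, (s j - s' j) = ∑ j, (s1 j - s' j) + 1 := by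
          rw [← Finset.add_sum_erase _ _ (Finset.mem_univ i),
            ← Finset.add_sum_erase univ (fun j => s1 j - s' j) (Finset.mem_univ i)]
          have h6 : ∑ j ∈ univ.erase i, (s j - s' j) = ∑ j ∈ univ.erase i, (s1 j - s' j) :=
            Finset.sum_congr rfl fun j hj => by rw [hs1j j (Finset.ne_of_mem_erase hj)]
          rw [h6, hs1i]
          omega
        omega
      · by_cases hj : j = i
        · subst hj
          omega
        · rw [hs1j j hj]
          exact hs' j
  intro s s' g hs hs' hg hpre
  exact key _ s s' g rfl hs hs' hg hpre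

end Pool.Agent.NH99.WZ
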