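import Pool.Agent.NH99.WZ.StmP
import Pool.Agent.NH99.WZ.Mass

/-!
# Project WZ, job WZ-31: moments of the laws (helper73)
-/

set_option autoImplicit false

namespace Pool.Agent.NH99.WZ

open Finset
open Pool.Agent.H397R2.SD (E)

namespace Mom

open Mass

/-- Bernoulli -/
theorem bern (z θ κ : ℝ) (hz : |z| ≤ κ) (hκ : κ ≤ 1 / 2) (h0 : 0 ≤ θ) (h1 : θ ≤ 1) :
    ((1 + z) ^ (1 + θ) + (1 + -z) ^ (1 + θ)) / 2 ≤ Real.exp (θ * κ ^ 2) := by
  have key : ∀ w : ℝ, |w| ≤ κ → (1 + w) ^ (1 + θ) ≤ (1 + w) * (1 + θ * w) := by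
    intro w hw
    have hw2 : -(1 / 2) ≤ w := by
      have := (abs_le.1 hw).1
      linarith
    have hpos : 0 < 1 + w := by linarith
    rw [Real.rpow_add hpos, Real.rpow_one]
    exact mul_le_mul_of_nonneg_left
      (rpow_one_add_le_one_add_mul_self (by linarith) h0 h1) hpos.le
  have a1 := key z hz
  have a2 := key (-z) (by rwa [abs_neg])
  have hz2 : z ^ 2 ≤ κ ^ 2 := by
    rw [← sq_abs z]
    exact pow_le_pow_left₀ (abs_nonneg z) hz 2
  have a3 : θ * z ^ 2 ≤ θ * κ ^ 2 := mul_le_mul_of_nonneg_left hz2 h0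
  have a4 := Real.add_one_le_exp (θ * κ ^ 2)
  have e : (1 + z) * (1 + θ * z) + (1 + -z) * (1 + θ * -z) = 2 + 2 * (θ * z ^ 2) := by ring
  linarith

variable {Ω : Type}

open Classical in
/-- the truncated bias -/
noncomputable def al (X : Fin 3 → ℕ → Ω → ℝ) (f : Ed → Ω → ℝ) (ρ κ : ℝ) (s : Ed) (v : ℕ) (x : Ω) :
    ℝ :=
  if |AA (Xx X x) (yx ρ f x) 0 (Function.update s 0 v)| ≤ κ then
    AA (Xx X x) (yx ρ f x) 0 (Function.update s 0 v) else 0

theorem al_le (X : Fin 3 → ℕ → Ω → ℝ) (f : Ed → Ω → ℝ) (ρ κ : ℝ) (hκ : 0 ≤ κ) (s : Ed) (v : ℕ)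
    (x : Ω) : |al X f ρ κ s v x| ≤ κ := by
  unfold al
  split_ifs with h
  · exact h
  · rwa [abs_zero]

theorem up_update (s : Ed) (v : ℕ) :
    up (Function.update s 0 v) 0 = Function.update s 0 (v + 1) := by
  unfold up
  rw [Function.update_self, Function.update_idem]

theorem sg {n : ℕ} {T : Fin 3 → ℕ → Ω → Ω} {X : Fin 3 → ℕ → Ω → ℝ} {f : Ed → Ω → ℝ}
    (hy : Hyp n T X f) (x : Ω) : Sg (Xx X x) := fun i v => hy.sgn i v x

/-- the product formula -/
theorem prodF (hS : S_SYS) {n : ℕ} {T : Fin 3 → ℕ → Ω → Ω} {X : Fin 3 → ℕ → Ω → ℝ}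
    {f : Ed → Ω → ℝ} (hy : Hyp n T X f) (ρ κ : ℝ) (s : Ed) (x : Ω)
    (hpos : ∀ r : Ed, (∀ i, r i ≤ s i) → 0 < DD (yx ρ f x) r)
    (hA : ∀ v < s 0, |AA (Xx X x) (yx ρ f x) 0 (Function.update s 0 v)| ≤ κ) :
    ∀ v, v ≤ s 0 → DD (yx ρ f x) (Function.update s 0 v) =
      ∏ u ∈ range v, (1 + X 0 u x * al X f ρ κ s u x) := by
  intro v
  induction v with
  | zero =>
    intro _
    rw [range_zero, prod_empty]
    exact hS.1 _ _ ⟨0, by rw [Function.update_self]⟩
  | succ v ih =>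
    intro hv
    have hlt : v < s 0 := by omega
    have hle : ∀ i, (Function.update s 0 v) i ≤ s i := by
      intro i
      by_cases hi : i = 0
      · subst hi
        rw [Function.update_self]
        omega
      · rw [Function.update_of_ne hi]
    have h1 := hpos _ hle
    have h2 := hS.2.2.2.1 (Xx X x) (yx ρ f x) 0 (Function.update s 0 v) (sg hy x) h1.ne'
    rw [up_update, Function.update_self] at h2
    rw [prod_range_succ, ← ih (by omega), h2]
    congr 2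
    unfold al
    rw [if_pos (hA v hlt)]
    rfl

/-- the truncated bias does not depend on the later digits -/
theorem al_pre (hP : S_PRED) {n : ℕ} {T : Fin 3 → ℕ → Ω → Ω} {X : Fin 3 → ℕ → Ω → ℝ}
    {f : Ed → Ω → ℝ} (hy : Hyp n T X f) (ρ κ : ℝ) (s : Ed) (v u : ℕ) (hv : v ≤ n) (hvu : v ≤ u)
    (x : Ω) : al X f ρ κ s v (T 0 u x) = al X f ρ κ s v x := by
  have h := (hP Ω n T X f ρ hy).2.2.1 0 (Function.update s 0 v)
    (by rw [Function.update_self]; exact hv) 0 u (by rw [Function.update_self]; exact hvu) x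
  simp only at h
  unfold al
  rw [h]

variable [Fintype Ω]

theorem E_half' (τ : Ω → Ω) (hτ : ∀ x, τ (τ x) = x) (g : Ω → ℝ) :
    E g = E (fun x => (g x + g (τ x)) / 2) := by
  rw [E_half, E_invol τ hτ g]
  ring

theorem E_const_mul (c : ℝ) (g : Ω → ℝ) : E (fun x => g x * c) = E g * c := by
  unfold E
  rw [← Finset.sum_mul]
  ring

theorem E_one [Nonempty Ω] : E (fun _ : Ω => (1 : ℝ)) = 1 := by
  unfold E
  have : (0 : ℝ) < Fintype.card Ω := by exact_mod_cast Fintype.card_pos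
  rw [Finset.sum_const, Finset.card_univ, nsmul_eq_mul, mul_one, div_self this.ne']

/-- the induction over the digits -/
theorem steps [Nonempty Ω] (hP : S_PRED) {n : ℕ} {T : Fin 3 → ℕ → Ω → Ω}
    {X : Fin 3 → ℕ → Ω → ℝ} {f : Ed → Ω → ℝ} (hy : Hyp n T X f) (ρ κ θ : ℝ) (s : Ed)
    (hs : s 0 ≤ n + 1) (hκ0 : 0 ≤ κ) (hκ : κ ≤ 1 / 2) (h0 : 0 ≤ θ) (h1 : θ ≤ 1) :
    ∀ k, k ≤ s 0 → E (fun x => ∏ u ∈ range k, (1 + X 0 u x * al X f ρ κ s u x) ^ (1 + θ)) ≤
      Real.exp (θ * κ ^ 2) ^ k := by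
  intro k
  induction k with
  | zero =>
    intro _
    simp only [range_zero, prod_empty, pow_zero]
    exact E_one.le
  | succ k ih =>
    intro hk
    have hkn : k ≤ n := by omega
    have hX : ∀ x, |X 0 k x| = 1 := by
      intro x
      rcases hy.sgn 0 k x with h | h <;> rw [h] <;> norm_num
    have hz : ∀ (u : ℕ) (x : Ω), |X 0 u x * al X f ρ κ s u x| ≤ κ := by
      intro u x
      have : |X 0 u x| = 1 := by
        rcases hy.sgn 0 u x with h | h <;> rw [h] <;> norm_num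
      rw [abs_mul, this, one_mul]
      exact al_le X f ρ κ hκ0 s u x
    have hnn : ∀ x, 0 ≤ ∏ u ∈ range k, (1 + X 0 u x * al X f ρ κ s u x) ^ (1 + θ) := by
      intro x
      refine prod_nonneg fun u _ => Real.rpow_nonneg ?_ _
      have := (abs_le.1 (hz u x)).1
      linarith
    have hfix : ∀ x, ∏ u ∈ range k, (1 + X 0 u (T 0 k x) * al X f ρ κ s u (T 0 k x)) ^ (1 + θ) =
        ∏ u ∈ range k, (1 + X 0 u x * al X f ρ κ s u x) ^ (1 + θ) := by
      intro x
      refine prod_congr rfl fun u hu => ?_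
      have hu' : u < k := mem_range.1 hu
      rw [hy.fixX 0 u 0 k x (by
        intro h
        have := congrArg Prod.snd h
        simp only at this
        omega), al_pre hP hy ρ κ s u k (by omega) (by omega) x]
    rw [E_half' (T 0 k) (hy.inv 0 k)]
    refine (E_le _ (fun x => (∏ u ∈ range k, (1 + X 0 u x * al X f ρ κ s u x) ^ (1 + θ)) *
      Real.exp (θ * κ ^ 2)) fun x => ?_).trans ?_
    · simp only [prod_range_succ]
      rw [hfix x, hy.odd 0 k x hkn, al_pre hP hy ρ κ s k k hkn le_rfl x, neg_mul]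
      have hb := bern (X 0 k x * al X f ρ κ s k x) θ κ (hz k x) hκ h0 h1
      have := mul_le_mul_of_nonneg_left hb (hnn x)
      refine le_trans (le_of_eq ?_) this
      ring
    · rw [E_const_mul, pow_succ]
      exact mul_le_mul_of_nonneg_right (ih (by omega)) (Real.exp_pos _).le

end Mom

open Mass Mom

open Classical in
theorem t_MOM (hS : S_SYS) (hP : S_PRED) : S_MOM := by
  intro Ω _ _ n T X f ρ κ θ s G hy hs hκ0 hκ h0 h1 hpos hA
  have h2 : ∀ x, (if G x then (DD (yx ρ f x) s) ^ (1 + θ) else 0) ≤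
      ∏ u ∈ range (s 0), (1 + X 0 u x * al X f ρ κ s u x) ^ (1 + θ) := by
    intro x
    have hnn : ∀ u ∈ range (s 0), 0 ≤ 1 + X 0 u x * al X f ρ κ s u x := by
      intro u _
      have h3 : |X 0 u x| = 1 := by
        rcases hy.sgn 0 u x with h | h <;> rw [h] <;> norm_num
      have h4 : |X 0 u x * al X f ρ κ s u x| ≤ κ := by
        rw [abs_mul, h3, one_mul]
        exact al_le X f ρ κ hκ0 s u x
      have := (abs_le.1 h4).1
      linarith
    split_ifs with hG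
    · have h3 := prodF hS hy ρ κ s x (hpos x hG) (hA x hG) (s 0) le_rfl
      rw [Function.update_eq_self] at h3
      rw [h3, Real.finsetProd_rpow _ _ hnn]
    · exact prod_nonneg fun u hu => Real.rpow_nonneg (hnn u hu) _
  refine (E_le _ _ h2).trans ((steps hP hy ρ κ θ s (hs 0) hκ0 hκ h0 h1 (s 0) le_rfl).trans ?_)
  rw [← Real.exp_nat_mul]
  apply Real.exp_le_exp.2
  have h3 : (s 0 : ℝ) ≤ (n : ℝ) + 1 := by exact_mod_cast hs 0
  have h4 : 0 ≤ θ * κ ^ 2 := mul_nonneg h0 (sq_nonneg κ)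
  have h5 := mul_le_mul_of_nonneg_right h3 h4
  have h6 : 0 ≤ ((n : ℝ) + 1) * (θ * κ ^ 2) := mul_nonneg (by positivity) h4
  have e : 2 * θ * ((n : ℝ) + 1) * κ ^ 2 = 2 * (((n : ℝ) + 1) * (θ * κ ^ 2)) := by ring
  rw [e]
  linarith

end Pool.Agent.NH99.WZ
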