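import Pool.Agent.NH99.WZ.StmP

set_option autoImplicit false

/-!
# Project WZ, job WZ-33: Hölder's inequality in the form needed
-/

namespace Pool.Agent.NH99.WZ

open Finset
open Pool.Agent.H397R2.SD (E)

namespace Hol

variable {Ω : Type} [Fintype Ω] [Nonempty Ω]

/-- Hölder's inequality for averages -/
theorem hold (D g : Ω → ℝ) {p q : ℝ} (h : p.HolderConjugate q) :
    E (fun x => D x * g x) ≤
      (E (fun x => |D x| ^ p)) ^ (1 / p) * (E (fun x => |g x| ^ q)) ^ (1 / q) := by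
  have hN : (0:ℝ) < Fintype.card Ω := by exact_mod_cast Fintype.card_pos
  have h1 := Real.inner_le_Lp_mul_Lq (Finset.univ : Finset Ω) D g h
  have ha : 0 ≤ ∑ x, |D x| ^ p := Finset.sum_nonneg fun x _ => Real.rpow_nonneg (abs_nonneg _) _
  have hb : 0 ≤ ∑ x, |g x| ^ q := Finset.sum_nonneg fun x _ => Real.rpow_nonneg (abs_nonneg _) _
  unfold E
  rw [Real.div_rpow ha hN.le, Real.div_rpow hb hN.le, div_mul_div_comm, ← Real.rpow_add hN]
  have h2 : 1 / p + 1 / q = 1 := by
    rw [one_div, one_div]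
    exact h.inv_add_inv_eq_one
  rw [h2, Real.rpow_one]
  exact div_le_div_of_nonneg_right h1 hN.le

end Hol

theorem t_HOL : S_HOL := by
  intro Ω _ _ D g V' Y K hV hY hg hE h
  set p : ℝ := 2 * (K : ℝ) + 2 with hp
  set q : ℝ := 1 + 1 / (2 * (K : ℝ) + 1) with hq
  have hK : (0 : ℝ) ≤ K := Nat.cast_nonneg K
  have hp1 : 1 < p := by rw [hp]; linarith
  have hq1 : 1 < q := by
    rw [hq]
    have : 0 < 1 / (2 * (K : ℝ) + 1) := by positivity
    linarith
  have hpq : p.HolderConjugate q := by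
    rw [Real.holderConjugate_iff]
    refine ⟨hp1, ?_⟩
    rw [hp, hq]
    have h1 : (2 * (K : ℝ) + 1) ≠ 0 := by positivity
    have h2 : (2 * (K : ℝ) + 2) ≠ 0 := by positivity
    have h3 : 1 + 1 / (2 * (K : ℝ) + 1) = (2 * (K : ℝ) + 2) / (2 * (K : ℝ) + 1) := by
      field_simp
      ring
    rw [h3, inv_div]
    field_simp
    ring
  have h1 := Hol.hold D g hpq
  set a := E (fun x => |D x| ^ p) with ha
  set b := E (fun x => |g x| ^ q) with hb
  have ha0 : 0 ≤ a := Pool.Agent.H397R2.SD.E_nonneg fun x => Real.rpow_nonneg (abs_nonneg _) _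
  have hb0 : 0 ≤ b := Pool.Agent.H397R2.SD.E_nonneg fun x => Real.rpow_nonneg (abs_nonneg _) _
  have hb1 : b ^ (1 / q) ≤ 1 + Y := by
    calc b ^ (1 / q) ≤ (1 + Y) ^ (1 / q) :=
          Real.rpow_le_rpow hb0 (by linarith) (by positivity)
      _ ≤ (1 + Y) ^ (1 : ℝ) := by
          apply Real.rpow_le_rpow_of_exponent_le (by linarith)
          rw [div_le_one (by linarith)]
          exact hq1.le
      _ = 1 + Y := Real.rpow_one _
  have h2 : (1 + Y) * V' ≤ (1 + Y) * a ^ (1 / p) := by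
    refine h.trans (h1.trans ?_)
    rw [mul_comm]
    exact mul_le_mul_of_nonneg_right hb1 (Real.rpow_nonneg ha0 _)
  have h3 : V' ≤ a ^ (1 / p) := le_of_mul_le_mul_left h2 (by linarith)
  have h4 : V' ^ (2 * K + 2) ≤ a := by
    have h5 : V' ^ p ≤ (a ^ (1 / p)) ^ p := Real.rpow_le_rpow hV.le h3 (by linarith)
    rw [← Real.rpow_mul ha0, one_div, inv_mul_cancel₀ (by linarith), Real.rpow_one] at h5
    have h6 : V' ^ p = V' ^ (2 * K + 2) := by
      rw [← Real.rpow_natCast]
      congr 1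
      rw [hp]
      push_cast
      ring
    rwa [h6] at h5
  have hev : Even (2 * K + 2) := ⟨K + 1, by omega⟩
  have h7 : a = E (fun x => D x ^ (2 * K + 2)) := by
    rw [ha]
    refine Pool.Agent.H397R2.SD.E_congr fun x => ?_
    have : p = ((2 * K + 2 : ℕ) : ℝ) := by
      rw [hp]
      push_cast
      ring
    rw [this, Real.rpow_natCast, hev.pow_abs]
  have h8 : E (fun x => (D x / V') ^ (2 * K + 2)) = E (fun x => D x ^ (2 * K + 2)) / V' ^ (2 * K + 2) := by
    rw [← Pool.Agent.H397R2.SD.E_div]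
    exact Pool.Agent.H397R2.SD.E_congr fun x => div_pow _ _ _
  rw [h8, le_div_iff₀ (by positivity), one_mul, ← h7]
  exact h4

end Pool.Agent.NH99.WZ
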