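import Pool.Agent.H397R2.SD.Defs

set_option autoImplicit false

/-!
# Project WZ: exact positive three-parameter laws

Definitions.  A cell is a triple of levels `r : Fin 3 → ℕ`.  `X t v = ± 1` is the sign of the
digit `v` of the coordinate `t`, `y r` is the birth at the cell `r`.
-/

namespace Pool.Agent.NH99.WZ

open Finset
open Pool.Agent.H397R2.SD (E)

/-- cells -/
abbrev Ed : Type := Fin 3 → ℕ

/-- raise the coordinate `t` by one -/
def up (r : Ed) (t : Fin 3) : Ed := Function.update r t (r t + 1)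

/-- the coordinate different from `t` and `u` (for `t ≠ u`) -/
def thd (t u : Fin 3) : Fin 3 := -t - u

/-- the cell with `t`-coordinate `a`, `u`-coordinate `b` and third coordinate `c` -/
def cl (t u : Fin 3) (a b c : ℕ) : Ed := fun i => if i = t then a else if i = u then b else c

/-- the eighth corner without third order interaction; `d` is the value at the lowest corner,
`u t` at the corner raised in the coordinate `t`, `v t` at the corner raised in the two other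
coordinates -/
noncomputable def cb (d : ℝ) (u v : Fin 3 → ℝ) : ℝ :=
  if d = 0 then v 0 + v 1 + v 2 - u 0 - u 1 - u 2 + d
  else (u 0 * v 0 + u 1 * v 1 + u 2 * v 2) / d - 2 * (u 0 * u 1 * u 2) / d ^ 2

open Classical in
/-- the laws -/
noncomputable def DD (y : Ed → ℝ) (s : Ed) : ℝ :=
  if h : ∃ i, s i = 0 then 1 else
    cb (DD y (fun i => s i - 1)) (fun t => DD y (up (fun i => s i - 1) t))
      (fun t => DD y (up (up (fun i => s i - 1) (t + 1)) (t + 2))) + y (fun i => s i - 1)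
termination_by s 0 + s 1 + s 2
decreasing_by
  all_goals
    push Not at h
    have h0 := h 0
    have h1 := h 1
    have h2 := h 2
  · omega
  · fin_cases t <;> simp [up, Function.update] <;> omega
  · fin_cases t <;> simp [up, Function.update] <;> omega

/-- the bias of the digit `r t` of the coordinate `t` -/
noncomputable def AA (X : Fin 3 → ℕ → ℝ) (y : Ed → ℝ) (t : Fin 3) (r : Ed) : ℝ :=
  X t (r t) * (DD y (up r t) - DD y r) / DD y r

/-- the covariance of the digits of the coordinates `w + 1` and `w + 2`, at time `r w` -/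
noncomputable def PP (X : Fin 3 → ℕ → ℝ) (y : Ed → ℝ) (w : Fin 3) (r : Ed) : ℝ :=
  X (w + 1) (r (w + 1)) * X (w + 2) (r (w + 2)) *
    (DD y (up (up r (w + 1)) (w + 2)) * DD y r - DD y (up r (w + 1)) * DD y (up r (w + 2))) /
      DD y r ^ 2

/-- the coefficient of the innovation of coordinate `u` in the bias of coordinate `t` -/
noncomputable def gg (X : Fin 3 → ℕ → ℝ) (y : Ed → ℝ) (t u : Fin 3) (r : Ed) : ℝ :=
  PP X y (thd t u) r / (1 - AA X y u r ^ 2)

/-- third difference of a function of cells -/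
noncomputable def d3 (D : Ed → ℝ) (r : Ed) : ℝ :=
  D (fun i => r i + 1) - ∑ t : Fin 3, D (up (up r (t + 1)) (t + 2)) +
    ∑ t : Fin 3, D (up r t) - D r

/-- third difference of the laws -/
noncomputable def D3 (y : Ed → ℝ) (r : Ed) : ℝ := d3 (DD y) r

/-! ### Norms -/

/-- Walsh functions on `[0, 2 ^ m)` -/
def wal (m a i : ℕ) : ℝ :=
  ∏ k ∈ range m, if (a.testBit k && i.testBit k) = true then (-1 : ℝ) else 1

/-- the operator norm of the matrix `M i j`, `i < I`, `j < J`, is at most `κ` -/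
def Op (I J : ℕ) (M : ℕ → ℕ → ℝ) (κ : ℝ) : Prop :=
  ∀ x z : ℕ → ℝ, |∑ i ∈ range I, ∑ j ∈ range J, x i * z j * M i j| ≤
    κ * (Real.sqrt (∑ i ∈ range I, x i ^ 2) * Real.sqrt (∑ j ∈ range J, z j ^ 2))

/-- difference norm of a family of matrices `G i j τ`, `τ ≤ T`, with `G i j 0 = 0` -/
def FB (m I J T : ℕ) (G : ℕ → ℕ → ℕ → ℝ) (κ : ℝ) : Prop :=
  ∀ a < 2 ^ m, Op I J (fun i j => ∑ τ ∈ range T, wal m a τ * (G i j (τ + 1) - G i j τ)) κ

/-- difference norm of a function `f i j`, `i ≤ I`, `j ≤ J`, with `f 0 j = f i 0 = 0` -/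
def F2 (m I J : ℕ) (f : ℕ → ℕ → ℝ) (κ : ℝ) : Prop :=
  ∀ a < 2 ^ m, ∀ b < 2 ^ m, |∑ i ∈ range I, ∑ j ∈ range J, wal m a i * wal m b j *
    (f (i + 1) (j + 1) - f (i + 1) j - f i (j + 1) + f i j)| ≤ κ

/-- the condition at the cell `q` -/
def Cond (m : ℕ) (β δ : ℝ) (X : Fin 3 → ℕ → ℝ) (y : Ed → ℝ) (q : Ed) : Prop :=
  (∀ t : Fin 3, ∀ a < 2 ^ m, Op (q (t + 1) + 1) (q (t + 2) + 1)
    (fun i j => ∑ τ ∈ range (q t),
      wal m a τ * (X (t + 1) i * X (t + 2) j * y (cl t (t + 1) τ i j))) β) ∧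
  (∀ t : Fin 3, ∀ v ≤ q t,
    F2 m (q (t + 1)) (q (t + 2)) (fun i j => AA X y t (cl t (t + 1) v i j)) δ)

/-- good cells: the condition holds at all cells below -/
def Good (m : ℕ) (β δ : ℝ) (X : Fin 3 → ℕ → ℝ) (y : Ed → ℝ) (q : Ed) : Prop :=
  ∀ r : Ed, (∀ i, r i ≤ q i) → Cond m β δ X y r

/-- the deterministic bounds at level `s` -/
structure LV (m : ℕ) (X : Fin 3 → ℕ → ℝ) (y : Ed → ℝ) (s : Ed) (γ : ℝ) : Prop where
  pos : ∀ r : Ed, (∀ i, r i ≤ s i) → 0 < DD y r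
  small : ∀ (t : Fin 3) (r : Ed), (∀ i, r i ≤ s i) → r t < s t → |AA X y t r| ≤ 1 / 4
  fb : ∀ t u : Fin 3, t ≠ u →
    FB m (s t + 1) (s u) (s (thd t u)) (fun i j τ => gg X y t u (cl t u i j τ)) γ

/-! ### Chains -/

/-- matrix valued kernels on cells -/
abbrev Ker : Type := Ed → ℕ → ℕ → ℝ

/-- the cells below `s` -/
def cells (s : Ed) : Finset Ed := Fintype.piFinset (fun i => range (s i + 1))

/-- the sum of the innovations of the coordinate `t` with the coefficients `Γ` -/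
noncomputable def TT (X : Fin 3 → ℕ → ℝ) (y : Ed → ℝ) (s : Ed) (t : Fin 3) (Γ : Ker)
    (k j : ℕ) : ℝ :=
  ∑ r ∈ (cells s).filter (fun r => r t < s t), Γ r k j * (X t (r t) - AA X y t r)

/-- the fresh part -/
noncomputable def FR (X : Fin 3 → ℕ → ℝ) (y : Ed → ℝ) (s : Ed) (t : Fin 3) (Γ : Ker)
    (k j : ℕ) : ℝ :=
  ∑ v ∈ range (s t), (X t v - AA X y t (Function.update s t v)) *
    ∑ r ∈ (cells s).filter (fun r => r t = v), Γ r k j

/-- the next kernel, first kind (distinguished coordinate `t + 1`) -/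
noncomputable def S1 (X : Fin 3 → ℕ → ℝ) (y : Ed → ℝ) (s : Ed) (t : Fin 3) (Γ : Ker) : Ker :=
  fun r k j => if r t < s t then
    gg X y t (t + 1) r * ∑ w ∈ range (r (t + 1) + 1), Γ (Function.update r (t + 1) w) k j
  else 0

/-- the next kernel, second kind (distinguished coordinate `t + 2`) -/
noncomputable def S2 (X : Fin 3 → ℕ → ℝ) (y : Ed → ℝ) (s : Ed) (t : Fin 3) (Γ : Ker) : Ker :=
  fun r k j => if r t < s t ∧ r (t + 1) = s (t + 1) then
    gg X y t (t + 2) r * ∑ w ∈ range (s (t + 1) + 1), ∑ u ∈ range (r (t + 2) + 1),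
      Γ (Function.update (Function.update r (t + 1) w) (t + 2) u) k j
  else 0

/-- the trilinear form of a kernel with distinguished coordinate `t` and weights `φ`, `ψ` -/
noncomputable def GK (s : Ed) (t : Fin 3) (φ ψ : ℕ → ℝ) (Γ : Ker) (k j v : ℕ) : ℝ :=
  ∑ r ∈ (cells s).filter (fun r => r t = v), φ (r (t + 1)) * ψ (r (t + 2)) * Γ r k j

/-- the flattening norms of the tensor `G k j v`, `k, j < K`, `v < V`, are at most `ν` -/
def Fl (K V : ℕ) (G : ℕ → ℕ → ℕ → ℝ) (ν : ℝ) : Prop :=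
  ∀ (x : ℕ → ℝ) (Z : ℕ → ℕ → ℝ),
    |∑ k ∈ range K, ∑ j ∈ range K, ∑ v ∈ range V, x k * Z j v * G k j v| ≤
      ν * (Real.sqrt (∑ k ∈ range K, x k ^ 2) *
        Real.sqrt (∑ j ∈ range K, ∑ v ∈ range V, Z j v ^ 2)) ∧
    |∑ k ∈ range K, ∑ j ∈ range K, ∑ v ∈ range V, x j * Z k v * G k j v| ≤
      ν * (Real.sqrt (∑ j ∈ range K, x j ^ 2) *
        Real.sqrt (∑ k ∈ range K, ∑ v ∈ range V, Z k v ^ 2))

/-- the norm of a kernel with distinguished coordinate `t` -/
def NN (s : Ed) (t : Fin 3) (K : ℕ) (Γ : Ker) (ν : ℝ) : Prop :=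
  ∀ φ ψ : ℕ → ℝ, (∀ i, |φ i| ≤ 1) → (∀ i, |ψ i| ≤ 1) → Fl K (s t) (GK s t φ ψ Γ) ν

/-! ### Probability -/

/-- signs and births of order `n` on a space with the flips `T i v` -/
structure Hyp {Ω : Type} (n : ℕ) (T : Fin 3 → ℕ → Ω → Ω) (X : Fin 3 → ℕ → Ω → ℝ)
    (f : Ed → Ω → ℝ) : Prop where
  inv : ∀ i v x, T i v (T i v x) = x
  comm : ∀ i v j u x, T i v (T j u x) = T j u (T i v x)
  sgn : ∀ i v x, X i v x = 1 ∨ X i v x = -1
  odd : ∀ i v x, v ≤ n → X i v (T i v x) = -X i v x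
  fixX : ∀ i v j u x, (i, v) ≠ (j, u) → X i v (T j u x) = X i v x
  le : ∀ r x, |f r x| ≤ 1
  zero : ∀ r x, ∑ i, r i ≠ n → f r x = 0
  oddf : ∀ r i x, f r (T i (r i) x) = -f r x
  fixf : ∀ r i v x, r i < v → f r (T i v x) = f r x

/-- the signs at a point -/
def Xx {Ω : Type} (X : Fin 3 → ℕ → Ω → ℝ) (x : Ω) : Fin 3 → ℕ → ℝ := fun i v => X i v x

/-- the births at a point -/
def yx {Ω : Type} (ρ : ℝ) (f : Ed → Ω → ℝ) (x : Ω) : Ed → ℝ := fun r => ρ * f r x

/-- a function of the digits below `s` -/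
def Pre {Ω α : Type} (T : Fin 3 → ℕ → Ω → Ω) (s : Ed) (g : Ω → α) : Prop :=
  ∀ i v, s i ≤ v → ∀ x, g (T i v x) = g x

open Classical in
/-- the test function -/
noncomputable def Psi {Ω : Type} (n m : ℕ) (ρ β δ : ℝ) (X : Fin 3 → ℕ → Ω → ℝ)
    (f : Ed → Ω → ℝ) (x : Ω) : ℝ :=
  1 + ∑ r ∈ cells (fun _ => n),
    if Good m β δ (Xx X x) (yx ρ f x) r then D3 (yx ρ f x) r else 0

end Pool.Agent.NH99.WZ
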